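import Mathlib
import Pool.Agent.Work.MP_104cea_lc.SDB.Stmts

/-!
# Sums of determinants of matrices of polynomials of bounded degree

If the permanent of size `m` is a (border) sum of `r` terms `q * det A`, with `A` an `n × n` matrix
of polynomials of degree at most `t` and `q` of small degree, then with `x = t n / m ≥ 1`
`3 r ≥ exp (c m / ((1 + log x) ^ 2 (t + x (1 + log x))))`.
Definitions and the exact statements of the items; built on `SumDet` and `SDB`.
-/

set_option autoImplicit false

namespace Pool.Agent.Work.MP_499dc6_lc.TSD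

open Pool.Agent.Work.MP_104cea_lc.SumDet
open Pool.Agent.Work.MP_104cea_lc.SDB
open scoped PowerSeries
open MvPolynomial Finset

/-- The span of `x^A` times the `k × k` minors of the matrix `Q`, with `|A| = s`. -/
noncomputable def MinSpanT {σ F : Type} [Field F] {n : ℕ}
    (Q : Matrix (Fin n) (Fin n) (MvPolynomial σ F)) (k s : ℕ) : Submodule F (MvPolynomial σ F) :=
  Submodule.span F {p | ∃ (A : σ →₀ ℕ) (r c : Fin k → Fin n), A.degree = s ∧
    p = monomial A 1 * (Q.submatrix r c).det}

/-- The cells whose exponent is at least `t`. -/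
def thr {N n : ℕ} (ι : V n → V N) (t : ℕ) (T : V N →₀ ℕ) : Finset (V n) :=
  univ.filter fun v => t ≤ T (ι v)

open scoped Classical in
/-- Number of exponents of degree `D` whose set of cells with exponent at least `t` satisfies
`P`. -/
noncomputable def cntT {N n : ℕ} (ι : V n → V N) (t D : ℕ) (P : Finset (V n) → Prop) : ℕ :=
  ((expo N D).filter fun T => P (thr ι t T)).card

/-- `perm_m` is, up to `ε R` with `R` over `k[[ε]]`, a sum of `r` polynomials `q * det A`, where `q`
has degree at most `e` and `A` is an `n × n` matrix of polynomials of degree at most `t`, over the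
field `k((ε))`. -/
def BorderPDetSum (k : Type) [Field k] (m n t e r : ℕ) : Prop :=
  ∃ (q : Fin r → MvPolynomial (V m) (LaurentSeries k))
    (A : Fin r → Matrix (Fin n) (Fin n) (MvPolynomial (V m) (LaurentSeries k)))
    (R : MvPolynomial (V m) k⟦X⟧),
    (∀ s, (q s).totalDegree ≤ e) ∧ (∀ s i j, (A s i j).totalDegree ≤ t) ∧
    ∑ s, q s * (A s).det =
      map (algebraMap k⟦X⟧ (LaurentSeries k))
        ((gen m k⟦X⟧).permanent + C PowerSeries.X * R)

/-! ## M: the ideal of minors of a matrix of forms of degree `t` -/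

/-- M0: independence at one value of a parameter implies independence at almost all values. -/
def StmtM0 : Prop :=
  ∀ (F : Type) [Field F] (σ ι : Type) [Finite ι] (v : ι → MvPolynomial σ (Polynomial F)),
    LinearIndependent F (fun i => map (Polynomial.evalRingHom 0) (v i)) →
    {a : F | ¬ LinearIndependent F (fun i => map (Polynomial.evalRingHom a) (v i))}.Finite

/-- The remainders of the exponents modulo `t` at the cells `ι v`. -/
noncomputable def resid {N n : ℕ} (ι : V n → V N) (t : ℕ) (T : V N →₀ ℕ) : V N →₀ ℕ :=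
  Finsupp.equivFunOnFinite.symm fun w => if ∃ v, ι v = w then T w % t else T w

/-- The element of the basis attached to an exponent. -/
noncomputable def bas {F : Type} [Field F] {N n : ℕ} (ι : V n → V N) (t : ℕ)
    (Q : Matrix (Fin n) (Fin n) (MvPolynomial (V N) F)) (T : V N →₀ ℕ) : MvPolynomial (V N) F :=
  monomial (resid ι t T) 1 * ∏ v : V n, Q v.1 v.2 ^ (T (ι v) / t)

/-- M1: the identity of counts. -/
def StmtM1 : Prop :=
  ∀ (N n t s k : ℕ) (ι : V n → V N) (P : Finset (V n) → Prop), 1 ≤ t → Function.Injective ι →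
    (∀ S, P S → k ≤ S.card) →
    ∑ d ∈ range (s + 1), (if t ∣ s - d then
        ((expo N d).filter fun T => ∀ v, T (ι v) < t).card * cnt n ((s - d) / t + k) P else 0) =
      cntT ι t (s + t * k) P

/-- M2: the dimension count for a matrix `Q` such that the elements `bas` of degree `s` are
independent. -/
def StmtM2 : Prop :=
  ∀ (F : Type) [Field F] [CharZero F] (N n κ t s : ℕ) (ι : V n → V N)
    (Q : Matrix (Fin n) (Fin n) (MvPolynomial (V N) F)), 1 ≤ t → Function.Injective ι →
    (∀ i j, (Q i j).IsHomogeneous t) →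
    LinearIndependent F (fun T : {T : V N →₀ ℕ // T ∈ expo N s} => bas ι t Q T.1) →
    FiniteDimensional F (MinSpanT Q (κ + 1) s) ∧
    Module.finrank F (MinSpanT Q (κ + 1) s) ≤
      cntT ι t (s + t * (κ + 1)) (fun S => κ + 1 ≤ lpp (ind S) n n)

/-- M3: for every matrix of forms there is one with independent elements `bas` and with at least
the same dimension. -/
def StmtM3 : Prop :=
  ∀ (F : Type) [Field F] [CharZero F] (N n k t s : ℕ) (ι : V n → V N)
    (Q : Matrix (Fin n) (Fin n) (MvPolynomial (V N) F)), 1 ≤ t → Function.Injective ι →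
    (∀ i j, (Q i j).IsHomogeneous t) →
    ∃ Q' : Matrix (Fin n) (Fin n) (MvPolynomial (V N) F), (∀ i j, (Q' i j).IsHomogeneous t) ∧
      LinearIndependent F (fun T : {T : V N →₀ ℕ // T ∈ expo N s} => bas ι t Q' T.1) ∧
      (FiniteDimensional F (MinSpanT Q' k s) → FiniteDimensional F (MinSpanT Q k s) ∧
        Module.finrank F (MinSpanT Q k s) ≤ Module.finrank F (MinSpanT Q' k s))

/-- M4: the upper bound for every matrix of forms of degree `t`. -/
def StmtM4 : Prop :=
  ∀ (F : Type) [Field F] [CharZero F] (N n κ t s : ℕ) (ι : V n → V N)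
    (Q : Matrix (Fin n) (Fin n) (MvPolynomial (V N) F)), 1 ≤ t → Function.Injective ι →
    (∀ i j, (Q i j).IsHomogeneous t) →
    FiniteDimensional F (MinSpanT Q (κ + 1) s) ∧
    Module.finrank F (MinSpanT Q (κ + 1) s) ≤
      cntT ι t (s + t * (κ + 1)) (fun S => κ + 1 ≤ lpp (ind S) n n)

/-! ## S: substitution, derivatives, comparison of counts -/

/-- S1: substitution of linear forms and homogenisation. -/
def StmtTS1 : Prop :=
  ∀ (F : Type) [Field F] (m n t e r : ℕ), m ≤ t * n + e → BorderPDetSum F m n t e r →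
    ∀ (σ : Type) (y0 : σ) (N : Matrix (Fin m) (Fin m) (MvPolynomial σ F)),
    (∀ i j, (N i j).IsHomogeneous 1) →
    ∃ (q : Fin r → MvPolynomial σ (LaurentSeries F))
      (B : Fin r → Matrix (Fin n) (Fin n) (MvPolynomial σ (LaurentSeries F)))
      (R : MvPolynomial σ F⟦X⟧),
      (∀ s, (q s).IsHomogeneous e) ∧ (∀ s i j, (B s i j).IsHomogeneous t) ∧
      ∑ s, q s * (B s).det = map (algebraMap F⟦X⟧ (LaurentSeries F))
        (map (PowerSeries.C (R := F)) (X y0 ^ (t * n + e - m) * N.permanent) +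
          C PowerSeries.X * R)

/-- S4: the product rule. -/
def StmtTS4 : Prop :=
  ∀ (F σ : Type) [Field F] (n K t e s : ℕ) (q : MvPolynomial σ F)
    (Q : Matrix (Fin n) (Fin n) (MvPolynomial σ F)), K ≤ n → 1 ≤ t →
    q.IsHomogeneous e → (∀ i j, (Q i j).IsHomogeneous t) →
    SP K s (q * Q.det) ≤ MinSpanT Q (n - K) (s + e + (t - 1) * K)

/-- S5: the comparison of counts. -/
def StmtTS5 : Prop :=
  ∀ (F : Type) [Field F] [CharZero F] (m n t e r K a L N : ℕ) (ω : F) (g : Ix K a L → V N)
    (ι : V n → V N), IsPrimitiveRoot ω (a + 1) → Function.Injective g → Function.Injective ι →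
    1 ≤ K → K < n → 1 ≤ a → 1 ≤ t → K * beta a L ≤ m → m ≤ t * n → BorderPDetSum F m n t e r →
    ∀ d, cnt N d (Good g) ≤
      r * cntT ι t (d + (t * n + e - K - 2 * a * K * (L + 1)))
        (fun S => n - K ≤ lpp (ind S) n n)

/-! ## P, E: probability and assembly -/

/-- P1: from counts to probabilities. -/
def StmtTP1 : Prop :=
  ∀ (N n : ℕ) (ι : V n → V N) (P : Finset (V N) → Prop) (Q : Finset (V n) → Prop) (t c j : ℕ)
    (z : ℝ), Function.Injective ι → 1 ≤ t → 0 < z → z < 1 →
    (∀ d, cnt N d P ≤ c * cntT ι t (d + j) Q) → z ^ j * pr N z P ≤ c * pr n (z ^ t) Q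

/-- The inequality for given parameters. -/
def IneqT (m n t e r : ℕ) : Prop :=
  ∀ (K a L : ℕ) (z α Y : ℝ), 1 ≤ K → K < n → 1 ≤ a → K * beta a L ≤ m → 0 < z → z < 1 → 0 < α →
    1 ≤ Y →
    z ^ (t * n + e - K) * (2 - z ^ (L + 1)) ^ (2 * a * K) * Y ^ (n - K) *
      ((1 + α) * (1 + z ^ t / α / Y)) ^ n ≤ r * ((1 + α * Y) * (1 + z ^ t / α)) ^ n

/-- E1: the inequality, over an algebraically closed field. -/
def StmtTE1 : Prop :=
  ∀ (F : Type) [Field F] [CharZero F] [IsAlgClosed F] (m n t e r : ℕ), 1 ≤ t → m ≤ t * n →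
    BorderPDetSum F m n t e r → IneqT m n t e r

/-- The exponent of the lower bound, without the constant. -/
noncomputable def expon (m n t : ℕ) : ℝ :=
  m / ((1 + Real.log (t * n / m)) ^ 2 * (t + t * n / m * (1 + Real.log (t * n / m))))

/-- E2: the numeric part. -/
def StmtTE2 : Prop :=
  ∃ c : ℝ, 0 < c ∧ ∀ (m n t e r : ℕ), 1 ≤ m → 1 ≤ t → m ≤ t * n → 1 ≤ r →
    (e : ℝ) ≤ c * m / (1 + Real.log (t * n / m)) ^ 2 → IneqT m n t e r →
    Real.exp (c * expon m n t) ≤ 3 * r

/-- E3: base change to the algebraic closure, and `r = 0` is impossible. -/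
def StmtTE3 : Prop :=
  ∀ (F : Type) [Field F] [CharZero F] (m n t e r : ℕ), BorderPDetSum F m n t e r →
    1 ≤ r ∧ BorderPDetSum (AlgebraicClosure F) m n t e r

/-- The theorem. -/
def StmtTMain : Prop :=
  ∃ c : ℝ, 0 < c ∧ ∀ (k : Type) [Field k] [CharZero k] (m n t e r : ℕ), 1 ≤ m → 1 ≤ t →
    m ≤ t * n → (e : ℝ) ≤ c * m / (1 + Real.log (t * n / m)) ^ 2 → BorderPDetSum k m n t e r →
    Real.exp (c * expon m n t) ≤ 3 * r

theorem Main (h1 : StmtTE1) (h2 : StmtTE2) (h3 : StmtTE3) : StmtTMain := by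
  obtain ⟨c, hc, h⟩ := h2
  refine ⟨c, hc, ?_⟩
  intro k _ _ m n t e r hm ht hmn he hb
  obtain ⟨hr, hb'⟩ := h3 k m n t e r hb
  have : CharZero (AlgebraicClosure k) :=
    charZero_of_injective_algebraMap (FaithfulSMul.algebraMap_injective k (AlgebraicClosure k))
  exact h m n t e r hm ht hmn hr he (h1 (AlgebraicClosure k) m n t e r ht hmn hb')

theorem M4_of (h2 : StmtM2) (h3 : StmtM3) : StmtM4 := by
  intro F _ _ N n κ t s ι Q ht hι hQ
  obtain ⟨Q', hQ', hli, h⟩ := h3 F N n (κ + 1) t s ι Q ht hι hQ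
  obtain ⟨hfd, hle⟩ := h2 F N n κ t s ι Q' ht hι hQ' hli
  obtain ⟨hfd', hle'⟩ := h hfd
  exact ⟨hfd', hle'.trans hle⟩

end Pool.Agent.Work.MP_499dc6_lc.TSD
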