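import Pool.Agent.Work.MP_499dc6_lc.TSD.Stmts
import Pool.Agent.Work.MP_104cea_lc.Bd.B06

/-!
# TE3: base change to the algebraic closure; `r = 0` is impossible
-/

set_option autoImplicit false

namespace Pool.Agent.Work.MP_499dc6_lc.TSD

open Pool.Agent.Work.MP_104cea_lc.SumDet
open Pool.Agent.Work.MP_104cea_lc.SDB
open scoped PowerSeries
open MvPolynomial Finset

theorem TE3 : StmtTE3 := by
  intro F _ _ m n t e r ⟨q, A, R, hq, hA, hid⟩
  constructor
  · by_contra hr
    have hr0 : r = 0 := by omega
    subst hr0
    rw [Finset.univ_eq_empty, Finset.sum_empty] at hid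
    have hinj : Function.Injective (MvPolynomial.map (σ := V m)
        (algebraMap F⟦X⟧ (LaurentSeries F))) :=
      MvPolynomial.map_injective _ (FaithfulSMul.algebraMap_injective _ _)
    have h1 : (gen m F⟦X⟧).permanent + MvPolynomial.C PowerSeries.X * R = 0 := by
      apply hinj
      rw [← hid, map_zero]
    have h2 := congrArg (MvPolynomial.map (σ := V m) (PowerSeries.constantCoeff (R := F))) h1
    rw [map_add, map_mul, E3_gen, MvPolynomial.map_C, PowerSeries.constantCoeff_X, map_zero,
      map_zero, zero_mul, add_zero] at h2
    have h3 := congrArg (MvPolynomial.eval (fun p : V m => if p.1 = p.2 then (1 : F) else 0)) h2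
    rw [E3_perm, map_zero] at h3
    have h4 : (gen m F).map (MvPolynomial.eval (fun p : V m => if p.1 = p.2 then (1 : F) else 0)) =
        1 := by
      ext i j
      simp [gen, Matrix.one_apply]
    rw [h4, Matrix.permanent_one] at h3
    exact one_ne_zero h3
  · obtain ⟨φ, hφ⟩ := E3_lift F (AlgebraicClosure F) (algebraMap F (AlgebraicClosure F))
    refine ⟨fun s => MvPolynomial.map φ (q s), fun s => (A s).map (MvPolynomial.map φ),
      MvPolynomial.map (PowerSeries.map (algebraMap F (AlgebraicClosure F))) R, ?_, ?_, ?_⟩
    · intro s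
      exact le_trans (Finset.sup_mono (MvPolynomial.support_map_subset φ (q s))) (hq s)
    · intro s i j
      show (MvPolynomial.map φ (A s i j)).totalDegree ≤ t
      exact le_trans (Finset.sup_mono (MvPolynomial.support_map_subset φ (A s i j))) (hA s i j)
    · have h1 := congrArg (MvPolynomial.map φ) hid
      rw [map_sum] at h1
      have hR : MvPolynomial.map φ (MvPolynomial.map (algebraMap F⟦X⟧ (LaurentSeries F))
          ((gen m F⟦X⟧).permanent + MvPolynomial.C PowerSeries.X * R)) =
          MvPolynomial.map (algebraMap (AlgebraicClosure F)⟦X⟧ (LaurentSeries (AlgebraicClosure F)))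
            ((gen m (AlgebraicClosure F)⟦X⟧).permanent + MvPolynomial.C PowerSeries.X *
              MvPolynomial.map (PowerSeries.map (algebraMap F (AlgebraicClosure F))) R) := by
        have hcomp : φ.comp (algebraMap F⟦X⟧ (LaurentSeries F)) =
            (algebraMap (AlgebraicClosure F)⟦X⟧ (LaurentSeries (AlgebraicClosure F))).comp
              (PowerSeries.map (algebraMap F (AlgebraicClosure F))) := RingHom.ext hφ
        rw [MvPolynomial.map_map, hcomp, ← MvPolynomial.map_map]
        congr 1
        rw [map_add, map_mul, E3_gen, MvPolynomial.map_C, PowerSeries.map_X]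
      rw [hR] at h1
      rw [← h1]
      apply Finset.sum_congr rfl
      intro s _
      rw [map_mul, RingHom.map_det]
      rfl

end Pool.Agent.Work.MP_499dc6_lc.TSD
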