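import Pool.Agent.Work.MP_499dc6_lc.TSD.Stmts
import Pool.Agent.Work.MP_104cea_lc.SDB.S1

/-!
# TSD, item TS1: substitution of linear forms and homogenisation, entries of degree `t`
-/

set_option autoImplicit false

namespace Pool.Agent.Work.MP_499dc6_lc.TSD

open Pool.Agent.Work.MP_104cea_lc.SumDet
open Pool.Agent.Work.MP_104cea_lc.SDB
open Pool.Agent.Work.MP_104cea_lc.SDB.S1aux
open scoped PowerSeries
open MvPolynomial

namespace TS1aux

variable {S τ σ : Type} [CommRing S]

theorem hom_prod (ν : τ → MvPolynomial σ S) (y : MvPolynomial σ S) {ι : Type} (t : ℕ)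
    (s : Finset ι) (f : ι → MvPolynomial τ S) (h : ∀ i ∈ s, (phi ν (f i)).natDegree ≤ t) :
    hom ν y (t * s.card) (∏ i ∈ s, f i) = ∏ i ∈ s, hom ν y t (f i) := by
  classical
  induction s using Finset.induction_on with
  | empty =>
    simp only [Finset.card_empty, Finset.prod_empty, mul_zero]
    rw [hom_apply, map_one, Polynomial.reflect_one]
    simp
  | insert a s ha ih =>
    rw [Finset.card_insert_of_notMem ha, Finset.prod_insert ha, Finset.prod_insert ha,
      mul_add, mul_one, add_comm, hom_mul ν y (h a (Finset.mem_insert_self a s))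
        (d' := t * s.card), ih fun i hi => h i (Finset.mem_insert_of_mem hi)]
    rw [map_prod]
    refine (Polynomial.natDegree_prod_le _ _).trans ?_
    calc ∑ i ∈ s, (phi ν (f i)).natDegree ≤ ∑ i ∈ s, t :=
          Finset.sum_le_sum fun i hi => h i (Finset.mem_insert_of_mem hi)
      _ = t * s.card := by rw [Finset.sum_const, smul_eq_mul, mul_comm]

theorem natDegree_phi_det_le (ν : τ → MvPolynomial σ S) {n t : ℕ}
    (M : Matrix (Fin n) (Fin n) (MvPolynomial τ S)) (h : ∀ i j, (phi ν (M i j)).natDegree ≤ t) :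
    (phi ν M.det).natDegree ≤ t * n := by
  rw [Matrix.det_apply, map_sum]
  apply Polynomial.natDegree_sum_le_of_forall_le
  intro p _
  rw [Units.smul_def, map_zsmul]
  refine (Polynomial.natDegree_smul_le _ _).trans ?_
  rw [map_prod]
  refine (Polynomial.natDegree_prod_le _ _).trans ?_
  calc ∑ i, (phi ν (M (p i) i)).natDegree ≤ ∑ _i : Fin n, t :=
        Finset.sum_le_sum fun i _ => h _ _
    _ = t * n := by simp [mul_comm]

theorem hom_det (ν : τ → MvPolynomial σ S) (y : MvPolynomial σ S) {n t : ℕ}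
    (M : Matrix (Fin n) (Fin n) (MvPolynomial τ S)) (h : ∀ i j, (phi ν (M i j)).natDegree ≤ t) :
    hom ν y (t * n) M.det = (Matrix.of fun i j => hom ν y t (M i j)).det := by
  rw [Matrix.det_apply, Matrix.det_apply, map_sum]
  refine Finset.sum_congr rfl fun p _ => ?_
  rw [Units.smul_def, Units.smul_def, map_zsmul]
  congr 1
  have := hom_prod ν y t (Finset.univ : Finset (Fin n)) (fun i => M (p i) i) (fun i _ => h _ _)
  rw [Finset.card_univ, Fintype.card_fin] at this
  rw [this]
  rfl

end TS1aux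

theorem TS1 : StmtTS1 := by
  intro F _ m n t e r hmn hB σ y0 N hN
  obtain ⟨q, A, R, hq, hA, hid⟩ := hB
  set ψ := algebraMap F⟦X⟧ (LaurentSeries F) with hψ
  set νA : V m → MvPolynomial σ F⟦X⟧ := fun v => map (PowerSeries.C (R := F)) (N v.1 v.2) with hνA
  set νK : V m → MvPolynomial σ (LaurentSeries F) := fun v => map ψ (νA v) with hνK
  have hνAh : ∀ v, (νA v).IsHomogeneous 1 := fun v => (hN _ _).map _
  have hνKh : ∀ v, (νK v).IsHomogeneous 1 := fun v => (hνAh v).map _
  have hMd : ∀ s i j, (phi νK (A s i j)).natDegree ≤ t := fun s i j =>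
    (natDegree_phi_le _ _).trans (hA s i j)
  have hqd : ∀ s, (phi νK (q s)).natDegree ≤ e := fun s => (natDegree_phi_le _ _).trans (hq s)
  refine ⟨fun s => hom νK (X y0) e (q s), fun s => Matrix.of fun i j => hom νK (X y0) t (A s i j),
    hom νA (X y0) (e + t * n) R,
    fun s => hom_homogeneous νK hνKh _ (isHomogeneous_X _ _) _ (hqd s),
    fun s i j => hom_homogeneous νK hνKh _ (isHomogeneous_X _ _) _ (hMd s i j), ?_⟩
  have h1 : ∀ s, hom νK (X y0) e (q s) * (Matrix.of fun i j => hom νK (X y0) t (A s i j)).det =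
      hom νK (X y0) (e + t * n) (q s * (A s).det) := by
    intro s
    rw [hom_mul νK (X y0) (hqd s) (TS1aux.natDegree_phi_det_le νK (A s) (hMd s)),
      TS1aux.hom_det νK (X y0) (A s) (hMd s)]
  simp_rw [h1]
  rw [← map_sum]
  rw [hid]
  have h3 : (X y0 : MvPolynomial σ (LaurentSeries F)) = map ψ (X y0) := (map_X _ _).symm
  rw [h3, hνK, hom_map]
  congr 1
  rw [map_add, hom_C_mul]
  congr 1
  rw [hom_permanent (by omega), map_mul, map_pow, map_X]
  congr 2
  · omega
  · unfold Matrix.permanent
    rw [map_sum]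
    refine Finset.sum_congr rfl fun p _ => ?_
    rw [map_prod]
    rfl

end Pool.Agent.Work.MP_499dc6_lc.TSD
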