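import Mathlib
import Pool.Agent.Work.MP_499dc6_lc.TSD.Stmts
import Pool.Agent.Work.MP_104cea_lc.Bd.B05

/-!
# TE1: the inequality
-/

set_option autoImplicit false

namespace Pool.Agent.Work.MP_499dc6_lc.TSD

open Pool.Agent.Work.MP_104cea_lc.SumDet
open Pool.Agent.Work.MP_104cea_lc.SDB
open scoped PowerSeries
open MvPolynomial Finset

/-- Injections into a large board. -/
theorem TE1_inj (K a L n : ℕ) : ∃ (N : ℕ) (g : Ix K a L → V N) (ι : V n → V N),
    Function.Injective g ∧ Function.Injective ι := by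
  classical
  set N := n + Fintype.card (Ix K a L) + 1 with hN
  have h1 : Fintype.card (Ix K a L) ≤ Fintype.card (V N) := by
    have h2 : Fintype.card (V N) = N * N := by
      simp [V, Fintype.card_prod, Fintype.card_fin]
    rw [h2]
    nlinarith
  obtain ⟨g⟩ := Function.Embedding.nonempty_of_card_le h1
  have hle : n ≤ N := by omega
  refine ⟨N, g, fun v => (Fin.castLE hle v.1, Fin.castLE hle v.2), g.injective, ?_⟩
  rintro ⟨a1, a2⟩ ⟨b1, b2⟩ h
  simp only [Prod.mk.injEq] at h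
  have e1 := Fin.castLE_injective hle h.1
  have e2 := Fin.castLE_injective hle h.2
  rw [e1, e2]

theorem TE1 (hD2 : StmtD2) (hP2 : StmtP2) (hS5 : StmtTS5) (hP1 : StmtTP1) : StmtTE1 := by
  intro F _ _ _ m n t e r ht hmn hb K a L z α Y hK hKn ha hβ hz0 hz1 hα hY
  obtain ⟨ω, hω⟩ : ∃ ω : F, IsPrimitiveRoot ω (a + 1) :=
    HasEnoughRootsOfUnity.exists_primitiveRoot F (a + 1)
  obtain ⟨N, g, ι, hg, hι⟩ := TE1_inj K a L n
  have hY0 : 0 < Y := by linarith
  have hβn : K * beta a L ≤ t * n := hβ.trans hmn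
  have hj : K + 2 * a * K * (L + 1) ≤ t * n := by
    calc K + 2 * a * K * (L + 1) = K * (1 + 2 * a * (L + 1)) := by ring
      _ ≤ K * beta a L := Nat.mul_le_mul_left K (e1_beta a L)
      _ ≤ t * n := hβn
  have hq0 : 0 < z ^ t := pow_pos hz0 t
  have hq1 : z ^ t < 1 := pow_lt_one₀ hz0.le hz1 (by omega)
  set j := t * n + e - K - 2 * a * K * (L + 1) with hjd
  have hjs : t * n + e - K = j + (L + 1) * (2 * a * K) := by
    have : 2 * a * K * (L + 1) = (L + 1) * (2 * a * K) := by ring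
    omega
  have h1 := hP1 N n ι (Good g) (fun S => n - K ≤ lpp (ind S) n n) t r j z hι ht hz0 hz1
    (hS5 F m n t e r K a L N ω g ι hω hg hι hK hKn ha ht hβ hmn hb)
  rw [hP2 N K a L g z hg hz0 hz1] at h1
  have h2 := hD2 n (n - K) (z ^ t) α (z ^ t / α) Y hq0 hq1 hα (by positivity) (by field_simp) hY
  have h3 : z ^ (t * n + e - K) * (2 - z ^ (L + 1)) ^ (2 * a * K) =
      z ^ j * (2 * z ^ (L + 1) - z ^ (2 * (L + 1))) ^ (2 * a * K) := by
    have : 2 * z ^ (L + 1) - z ^ (2 * (L + 1)) = z ^ (L + 1) * (2 - z ^ (L + 1)) := by ring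
    rw [this, mul_pow, hjs, pow_add, pow_mul z (L + 1)]
    ring
  rw [h3]
  have hW : 0 ≤ Y ^ (n - K) * ((1 + α) * (1 + z ^ t / α / Y)) ^ n := by positivity
  calc z ^ j * (2 * z ^ (L + 1) - z ^ (2 * (L + 1))) ^ (2 * a * K) * Y ^ (n - K) *
        ((1 + α) * (1 + z ^ t / α / Y)) ^ n
      = (z ^ j * (2 * z ^ (L + 1) - z ^ (2 * (L + 1))) ^ (2 * a * K)) *
        (Y ^ (n - K) * ((1 + α) * (1 + z ^ t / α / Y)) ^ n) := by ring
    _ ≤ (r * pr n (z ^ t) (fun S => n - K ≤ lpp (ind S) n n)) *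
        (Y ^ (n - K) * ((1 + α) * (1 + z ^ t / α / Y)) ^ n) := mul_le_mul_of_nonneg_right h1 hW
    _ = r * (pr n (z ^ t) (fun S => n - K ≤ lpp (ind S) n n) * Y ^ (n - K) *
        ((1 + α) * (1 + z ^ t / α / Y)) ^ n) := by ring
    _ ≤ r * ((1 + α * Y) * (1 + z ^ t / α)) ^ n := mul_le_mul_of_nonneg_left h2 (Nat.cast_nonneg r)

end Pool.Agent.Work.MP_499dc6_lc.TSD
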