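import Pool.Agent.Work.MP_499dc6_lc.TSD.Stmts

/-!
# M0: independence at one value of a parameter implies independence at almost all values
-/

set_option autoImplicit false

namespace Pool.Agent.Work.MP_499dc6_lc.TSD

open Pool.Agent.Work.MP_104cea_lc.SumDet
open Pool.Agent.Work.MP_104cea_lc.SDB
open MvPolynomial Finset

theorem M0 : StmtM0 := by
  intro F _ σ ι _ v hli
  classical
  have : Fintype ι := Fintype.ofFinite ι
  obtain ⟨g, hg⟩ := LinearMap.exists_leftInverse_of_injective
    (Finsupp.linearCombination F (fun i => map (Polynomial.evalRingHom (0 : F)) (v i)))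
    (LinearMap.ker_eq_bot.2 hli)
  have hg' : ∀ i, g (map (Polynomial.evalRingHom (0 : F)) (v i)) = Finsupp.single i 1 := by
    intro i
    have h1 := LinearMap.congr_fun hg (Finsupp.single i 1)
    rw [LinearMap.comp_apply, Finsupp.linearCombination_single, one_smul] at h1
    exact h1
  let P : Matrix ι ι (Polynomial F) := Matrix.of fun i j =>
    ∑ s ∈ (v i).support, coeff s (v i) * Polynomial.C (g (monomial s 1) j)
  have hP : ∀ (a : F) (i j : ι), (P i j).eval a =
      g (map (Polynomial.evalRingHom a) (v i)) j := by
    intro a i j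
    have h1 : map (Polynomial.evalRingHom a) (v i) =
        ∑ s ∈ (v i).support, (coeff s (v i)).eval a • (monomial s (1 : F)) := by
      conv_lhs => rw [(v i).as_sum]
      rw [map_sum]
      apply Finset.sum_congr rfl
      intro s _
      rw [map_monomial, smul_monomial, smul_eq_mul, mul_one]
      rfl
    rw [h1, map_sum, Finsupp.finsetSum_apply]
    change Polynomial.eval a (∑ s ∈ (v i).support,
      coeff s (v i) * Polynomial.C (g (monomial s 1) j)) = _
    rw [Polynomial.eval_finsetSum]
    apply Finset.sum_congr rfl
    intro s _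
    rw [Polynomial.eval_mul, Polynomial.eval_C, map_smul, Finsupp.smul_apply, smul_eq_mul]
  have hdet : ∀ a : F, P.det.eval a =
      Matrix.det (Matrix.of fun i j => g (map (Polynomial.evalRingHom a) (v i)) j) := by
    intro a
    have h1 := RingHom.map_det (Polynomial.evalRingHom a) P
    rw [Polynomial.coe_evalRingHom] at h1
    rw [h1]
    congr 1
    ext i j
    exact hP a i j
  have h0 : P.det.eval 0 = 1 := by
    rw [hdet 0]
    have h1 : (Matrix.of fun i j => g (map (Polynomial.evalRingHom (0 : F)) (v i)) j) = 1 := by
      ext i j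
      rw [Matrix.of_apply, hg' i, Matrix.one_apply, Finsupp.single_apply]
    rw [h1, Matrix.det_one]
  have hne : P.det ≠ 0 := by
    intro h
    rw [h, Polynomial.eval_zero] at h0
    exact zero_ne_one h0
  refine (Polynomial.finite_setOfPred_isRoot hne).subset ?_
  intro a ha
  by_contra hr
  apply ha
  have h1 : Matrix.det (Matrix.of fun i j =>
      g (map (Polynomial.evalRingHom a) (v i)) j) ≠ 0 := by
    rw [← hdet a]
    exact hr
  have h2 := Matrix.linearIndependent_rows_of_det_ne_zero h1
  have h3 : LinearIndependent F ((Finsupp.lcoeFun (R := F) (α := ι) (M := F)).comp g ∘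
      fun i => map (Polynomial.evalRingHom a) (v i)) := h2
  exact h3.of_comp

end Pool.Agent.Work.MP_499dc6_lc.TSD
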