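import Pool.Agent.Work.MP_499dc6_lc.TSD.Stmts

/-!
# Item M3: generic deformation of a matrix of forms
-/

set_option autoImplicit false

namespace Pool.Agent.Work.MP_499dc6_lc.TSD

open Pool.Agent.Work.MP_104cea_lc.SumDet
open Pool.Agent.Work.MP_104cea_lc.SDB
open MvPolynomial Finset

namespace M3aux

variable {F : Type} [Field F] {N n : ℕ}

/-- The matrix of powers of variables. -/
noncomputable def Xt (F : Type) [Field F] {N n : ℕ} (ι : V n → V N) (t : ℕ) :
    Matrix (Fin n) (Fin n) (MvPolynomial (V N) F) :=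
  Matrix.of fun i j => X (ι (i, j)) ^ t

theorem Xt_hom (ι : V n → V N) (t : ℕ) (i j : Fin n) : (Xt F ι t i j).IsHomogeneous t := by
  have h := (isHomogeneous_X F (ι (i, j))).pow t
  rw [one_mul] at h
  exact h

theorem resid_add (ι : V n → V N) (hι : Function.Injective ι) (t : ℕ) (T : V N →₀ ℕ) :
    resid ι t T + ∑ v : V n, Finsupp.single (ι v) (t * (T (ι v) / t)) = T := by
  ext w
  rw [Finsupp.add_apply, Finsupp.finsetSum_apply]
  by_cases h : ∃ v, ι v = w
  · obtain ⟨v, rfl⟩ := h
    have h1 : resid ι t T (ι v) = T (ι v) % t := by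
      unfold resid
      simp
    rw [h1, Finset.sum_eq_single v]
    · rw [Finsupp.single_eq_same]
      exact Nat.mod_add_div _ _
    · intro b _ hb
      rw [Finsupp.single_eq_of_ne]
      intro hc
      exact hb (hι hc.symm)
    · intro hc
      exact absurd (Finset.mem_univ v) hc
  · have h1 : resid ι t T w = T w := by
      unfold resid
      simp only [Finsupp.equivFunOnFinite_symm_apply_apply, if_neg h]
    rw [h1, Finset.sum_eq_zero, add_zero]
    intro v _
    rw [Finsupp.single_eq_of_ne]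
    intro hc
    exact h ⟨v, hc.symm⟩

theorem bas_Xt (ι : V n → V N) (hι : Function.Injective ι) (t : ℕ) (T : V N →₀ ℕ) :
    bas ι t (Xt F ι t) T = monomial T 1 := by
  unfold bas
  have h1 : ∏ v : V n, Xt F ι t v.1 v.2 ^ (T (ι v) / t) =
      monomial (∑ v : V n, Finsupp.single (ι v) (t * (T (ι v) / t))) (1 : F) := by
    rw [monomial_sum_one]
    refine Finset.prod_congr rfl fun v _ => ?_
    change (X (ι (v.1, v.2)) ^ t) ^ (T (ι v) / t) = _
    rw [← pow_mul, X_pow_eq_monomial]
  rw [h1, monomial_mul, mul_one, resid_add ι hι t T]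

/-- The deformation with polynomial coefficients. -/
noncomputable def dfm (Q₀ Q₁ : Matrix (Fin n) (Fin n) (MvPolynomial (V N) F)) :
    Matrix (Fin n) (Fin n) (MvPolynomial (V N) (Polynomial F)) :=
  Matrix.of fun i j => map Polynomial.C (Q₀ i j) + C Polynomial.X * map Polynomial.C (Q₁ i j)

theorem eval_C (a : F) (p : MvPolynomial (V N) F) :
    map (Polynomial.evalRingHom a) (map Polynomial.C p) = p := by
  rw [MvPolynomial.map_map]
  have : (Polynomial.evalRingHom a).comp Polynomial.C = RingHom.id F := by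
    ext x
    simp
  rw [this, MvPolynomial.map_id]

theorem dfm_eval (Q₀ Q₁ : Matrix (Fin n) (Fin n) (MvPolynomial (V N) F)) (a : F)
    (i j : Fin n) :
    map (Polynomial.evalRingHom a) (dfm Q₀ Q₁ i j) = Q₀ i j + C a * Q₁ i j := by
  unfold dfm
  rw [Matrix.of_apply, map_add, map_mul, map_C, eval_C, eval_C]
  simp

/-- The basis element over `F[T]`. -/
noncomputable def basT (ι : V n → V N) (t : ℕ)
    (Q : Matrix (Fin n) (Fin n) (MvPolynomial (V N) (Polynomial F))) (T : V N →₀ ℕ) :
    MvPolynomial (V N) (Polynomial F) :=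
  monomial (resid ι t T) 1 * ∏ v : V n, Q v.1 v.2 ^ (T (ι v) / t)

theorem basT_eval (ι : V n → V N) (t : ℕ)
    (Q₀ Q₁ : Matrix (Fin n) (Fin n) (MvPolynomial (V N) F)) (a : F) (T : V N →₀ ℕ) :
    map (Polynomial.evalRingHom a) (basT ι t (dfm Q₀ Q₁) T) =
      bas ι t (Q₀ + (C a : MvPolynomial (V N) F) • Q₁) T := by
  unfold basT bas
  rw [map_mul, map_monomial, map_one, map_prod]
  congr 1
  refine Finset.prod_congr rfl fun v _ => ?_
  rw [map_pow, dfm_eval]
  rfl

/-- The generator over `F[T]`. -/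
noncomputable def genT (Q : Matrix (Fin n) (Fin n) (MvPolynomial (V N) (Polynomial F))) {k : ℕ}
    (A : V N →₀ ℕ) (r c : Fin k → Fin n) : MvPolynomial (V N) (Polynomial F) :=
  monomial A 1 * (Q.submatrix r c).det

theorem genT_eval (Q₀ Q₁ : Matrix (Fin n) (Fin n) (MvPolynomial (V N) F)) (a : F) {k : ℕ}
    (A : V N →₀ ℕ) (r c : Fin k → Fin n) :
    map (Polynomial.evalRingHom a) (genT (dfm Q₀ Q₁) A r c) =
      monomial A 1 * ((Q₀ + (C a : MvPolynomial (V N) F) • Q₁).submatrix r c).det := by
  unfold genT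
  rw [map_mul, map_monomial, map_one, RingHom.map_det]
  congr 2
  ext i j : 2
  rw [RingHom.mapMatrix_apply, Matrix.map_apply, Matrix.submatrix_apply, dfm_eval]
  rfl

theorem fd (Q : Matrix (Fin n) (Fin n) (MvPolynomial (V N) F)) (k s : ℕ) :
    FiniteDimensional F (MinSpanT Q k s) := by
  unfold MinSpanT
  apply FiniteDimensional.span_of_finite
  have hfin : (Set.range (fun x : {T : V N →₀ ℕ // T ∈ expo N s} × (Fin k → Fin n) ×
      (Fin k → Fin n) => (monomial x.1.1 1 * (Q.submatrix x.2.1 x.2.2).det :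
        MvPolynomial (V N) F))).Finite := Set.finite_range _
  refine hfin.subset ?_
  rintro p ⟨A, r, c, hA, rfl⟩
  refine ⟨(⟨A, ?_⟩, r, c), rfl⟩
  rw [expo, mem_finsuppAntidiag]
  refine ⟨?_, Finset.subset_univ _⟩
  rw [← hA, Finsupp.degree_eq_sum]

end M3aux

open M3aux in
theorem M3 (h0 : StmtM0) : StmtM3 := by
  intro F _ _ N n k t s ι Q ht hι hQ
  -- the bad values for the independence of the basis
  have hb1 := h0 F (V N) {T : V N →₀ ℕ // T ∈ expo N s}
    (fun T => basT ι t (dfm (Xt F ι t) Q) T.1) (by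
      simp only [basT_eval]
      have h1 : (fun T : {T : V N →₀ ℕ // T ∈ expo N s} =>
          bas ι t (Xt F ι t + (C (0 : F) : MvPolynomial (V N) F) • Q) T.1) = fun T => monomial T.1 1 := by
        funext T
        rw [C_0, zero_smul, add_zero, bas_Xt ι hι t T.1]
      rw [h1]
      have h2 := (basisMonomials (V N) F).linearIndependent
      rw [coe_basisMonomials] at h2
      exact h2.comp _ Subtype.val_injective)
  -- a basis of the span of the minors of Q
  have hfdQ : Module.Finite F (Submodule.span F {p : MvPolynomial (V N) F |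
      ∃ (A : V N →₀ ℕ) (r c : Fin k → Fin n), A.degree = s ∧
        p = monomial A 1 * (Q.submatrix r c).det}) := fd Q k s
  obtain ⟨f, hf1, hf2, hf3⟩ := Submodule.exists_fun_fin_finrank_span_eq F
    {p : MvPolynomial (V N) F | ∃ (A : V N →₀ ℕ) (r c : Fin k → Fin n), A.degree = s ∧
      p = monomial A 1 * (Q.submatrix r c).det}
  choose A r c hA hf using hf1
  have hb2 := h0 F (V N) (Fin (Module.finrank F (MinSpanT Q k s)))
    (fun i => genT (dfm Q (Xt F ι t)) (A i) (r i) (c i)) (by
      simp only [genT_eval]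
      have h1 : (fun i => (monomial (A i) 1 * ((Q + (C (0 : F) : MvPolynomial (V N) F) • Xt F ι t).submatrix
          (r i) (c i)).det : MvPolynomial (V N) F)) = f := by
        funext i
        rw [C_0, zero_smul, add_zero, ← hf i]
      exact h1 ▸ hf3)
  -- choice of the parameter
  have hfin : (({a : F | ¬ LinearIndependent F (fun T : {T : V N →₀ ℕ // T ∈ expo N s} =>
      map (Polynomial.evalRingHom a) (basT ι t (dfm (Xt F ι t) Q) T.1))} ∪
      (fun a : F => a⁻¹) ⁻¹' {b : F | ¬ LinearIndependent F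
        (fun i => map (Polynomial.evalRingHom b) (genT (dfm Q (Xt F ι t)) (A i) (r i) (c i)))}) ∪
      {0}).Finite :=
    (hb1.union (hb2.preimage inv_injective.injOn)).union (Set.finite_singleton 0)
  obtain ⟨a, ha⟩ := hfin.infinite_compl.nonempty
  simp only [Set.mem_compl_iff, Set.mem_union, Set.mem_singleton_iff, Set.mem_preimage,
    not_or] at ha
  obtain ⟨⟨ha1, ha2⟩, ha0⟩ := ha
  have ha1' : LinearIndependent F (fun T : {T : V N →₀ ℕ // T ∈ expo N s} =>
      map (Polynomial.evalRingHom a) (basT ι t (dfm (Xt F ι t) Q) T.1)) := by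
    by_contra hc
    exact ha1 hc
  have ha2' : LinearIndependent F
      (fun i => map (Polynomial.evalRingHom a⁻¹)
        (genT (dfm Q (Xt F ι t)) (A i) (r i) (c i))) := by
    by_contra hc
    exact ha2 hc
  simp only [basT_eval] at ha1'
  simp only [genT_eval] at ha2'
  refine ⟨Xt F ι t + (C a : MvPolynomial (V N) F) • Q, ?_, ha1', ?_⟩
  · intro i j
    refine (Xt_hom ι t i j).add ?_
    have h1 : (C a * Q i j).IsHomogeneous (0 + t) :=
      (isHomogeneous_C (V N) a).mul (hQ i j)
    rw [zero_add] at h1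
    exact h1
  · intro _
    refine ⟨fd Q k s, ?_⟩
    have hfd := fd (Xt F ι t + (C a : MvPolynomial (V N) F) • Q) k s
    have hQ' : Q + (C a⁻¹ : MvPolynomial (V N) F) • Xt F ι t = (C a⁻¹ : MvPolynomial (V N) F) • (Xt F ι t + (C a : MvPolynomial (V N) F) • Q) := by
      rw [smul_add, smul_smul, ← C_mul, inv_mul_cancel₀ ha0, C_1, one_smul, add_comm]
    have hmem : ∀ i, (monomial (A i) 1 * ((Q + (C a⁻¹ : MvPolynomial (V N) F) • Xt F ι t).submatrix (r i) (c i)).det :
        MvPolynomial (V N) F) ∈ MinSpanT (Xt F ι t + (C a : MvPolynomial (V N) F) • Q) k s := by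
      intro i
      rw [hQ', Matrix.submatrix_smul]
      change monomial (A i) 1 * ((C a⁻¹ : MvPolynomial (V N) F) • ((Xt F ι t + (C a : MvPolynomial (V N) F) • Q).submatrix (r i) (c i))).det ∈ _
      rw [Matrix.det_smul, Fintype.card_fin]
      have h1 : (monomial (A i) 1 * (C a⁻¹ ^ k * ((Xt F ι t + (C a : MvPolynomial (V N) F) • Q).submatrix (r i) (c i)).det) :
          MvPolynomial (V N) F) = (a⁻¹ ^ k) •
          (monomial (A i) 1 * ((Xt F ι t + (C a : MvPolynomial (V N) F) • Q).submatrix (r i) (c i)).det) := by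
        rw [smul_eq_C_mul, C_pow]
        ring
      rw [h1]
      exact Submodule.smul_mem _ _ (Submodule.subset_span ⟨A i, r i, c i, hA i, rfl⟩)
    have hli : LinearIndependent F (fun i => (⟨_, hmem i⟩ :
        MinSpanT (Xt F ι t + (C a : MvPolynomial (V N) F) • Q) k s)) := by
      apply LinearIndependent.of_comp (MinSpanT (Xt F ι t + (C a : MvPolynomial (V N) F) • Q) k s).subtype
      exact ha2'
    have hcard := hli.fintype_card_le_finrank
    rwa [Fintype.card_fin] at hcard

end Pool.Agent.Work.MP_499dc6_lc.TSD
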