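import Mathlib
import Pool.Agent.Work.MP_499dc6_lc.TSD.Stmts
import Pool.Agent.Work.MP_104cea_lc.Bd.B05

/-!
# TP1: from counts to probabilities, cells with exponent at least `t`
-/

set_option autoImplicit false

namespace Pool.Agent.Work.MP_499dc6_lc.TSD

open Pool.Agent.Work.MP_104cea_lc.SumDet
open Finset

section TP1

open scoped Classical in
/-- The exponents of degree `t` on `S` whose values satisfy `A`. -/
noncomputable def TP1s {α : Type} [DecidableEq α] (A : α → ℕ → Prop) (S : Finset α) (t : ℕ) :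
    Finset (α →₀ ℕ) :=
  (finsuppAntidiag S t).filter fun T => ∀ x ∈ S, A x (T x)

lemma TP1s_mem {α : Type} [DecidableEq α] (A : α → ℕ → Prop) (S : Finset α) (t : ℕ)
    (T : α →₀ ℕ) : T ∈ TP1s A S t ↔ (S.sum T = t ∧ T.support ⊆ S) ∧ ∀ x ∈ S, A x (T x) := by
  simp only [TP1s, mem_filter, mem_finsuppAntidiag]

/-- The number of exponents of degree `t` on `S` whose values satisfy `A`. -/
noncomputable def TP1b {α : Type} [DecidableEq α] (A : α → ℕ → Prop) (S : Finset α) (t : ℕ) : ℕ :=
  (TP1s A S t).card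

variable {α : Type} [DecidableEq α]

lemma TP1_zero (A : α → ℕ → Prop) (t : ℕ) : TP1b A (∅ : Finset α) t = if t = 0 then 1 else 0 := by
  classical
  unfold TP1b
  split_ifs with h
  · subst h
    rw [card_eq_one]
    refine ⟨0, ?_⟩
    ext T
    rw [TP1s_mem, mem_singleton]
    constructor
    · rintro ⟨⟨-, h1⟩, -⟩
      exact Finsupp.support_eq_empty.mp (subset_empty.mp h1)
    · rintro rfl
      simp
  · rw [card_eq_zero]
    ext T
    rw [TP1s_mem]
    simp only [sum_empty, notMem_empty, iff_false, not_and]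
    rintro ⟨h1, -⟩
    exact absurd h1.symm h

open scoped Classical in
lemma TP1_fiber (A : α → ℕ → Prop) (S : Finset α) (a : α) (ha : a ∉ S) (i j : ℕ) (hi : A a i) :
    ((TP1s A (insert a S) (i + j)).filter fun T => T a = i).card = TP1b A S j := by
  unfold TP1b
  refine card_nbij' (fun T => T.erase a) (fun T => T.update a i) ?_ ?_ ?_ ?_
  · intro T hT
    rw [mem_coe, mem_filter, TP1s_mem] at hT
    obtain ⟨⟨⟨h1, h2⟩, h3⟩, h4⟩ := hT
    rw [mem_coe, TP1s_mem]
    refine ⟨⟨?_, ?_⟩, ?_⟩
    · rw [sum_insert ha, h4] at h1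
      have h5 : S.sum (T.erase a) = S.sum T := by
        refine sum_congr rfl fun x hx => ?_
        rw [Finsupp.erase_ne]
        rintro rfl
        exact ha hx
      have h1' : i + S.sum T = i + j := h1
      rw [h5]
      omega
    · intro x hx
      rw [Finsupp.support_erase, mem_erase] at hx
      have := h2 hx.2
      rw [mem_insert] at this
      exact this.resolve_left hx.1
    · intro x hx
      have hxa : x ≠ a := by
        rintro rfl
        exact ha hx
      rw [Finsupp.erase_ne hxa]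
      exact h3 x (mem_insert_of_mem hx)
  · intro T hT
    rw [mem_coe, TP1s_mem] at hT
    obtain ⟨⟨h1, h2⟩, h3⟩ := hT
    rw [mem_coe, mem_filter, TP1s_mem]
    refine ⟨⟨⟨?_, ?_⟩, ?_⟩, ?_⟩
    · rw [sum_insert ha]
      have h4 : S.sum (T.update a i) = S.sum T := by
        refine sum_congr rfl fun x hx => ?_
        have hxa : x ≠ a := by
          rintro rfl
          exact ha hx
        rw [Finsupp.coe_update, Function.update_of_ne hxa]
      rw [h4, h1]
      simp
    · intro x hx
      rw [mem_insert]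
      by_cases hxa : x = a
      · exact Or.inl hxa
      · right
        apply h2
        rw [Finsupp.mem_support_iff] at hx ⊢
        rwa [Finsupp.coe_update, Function.update_of_ne hxa] at hx
    · intro x hx
      by_cases hxa : x = a
      · subst hxa
        simpa using hi
      · rw [Finsupp.coe_update, Function.update_of_ne hxa]
        rw [mem_insert] at hx
        exact h3 x (hx.resolve_left hxa)
    · simp
  · intro T hT
    rw [mem_coe, mem_filter] at hT
    obtain ⟨-, h3⟩ := hT
    ext x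
    by_cases hx : x = a
    · subst hx
      simp [h3]
    · simp [Function.update_of_ne hx]
  · intro T hT
    rw [mem_coe, TP1s_mem] at hT
    obtain ⟨⟨h1, h2⟩, h3⟩ := hT
    ext x
    by_cases hx : x = a
    · subst hx
      simp only [Finsupp.erase_same]
      by_contra h
      have : x ∈ T.support := Finsupp.mem_support_iff.mpr (Ne.symm h)
      exact ha (h2 this)
    · simp [Finsupp.erase_ne hx]

open scoped Classical in
lemma TP1_insert (A : α → ℕ → Prop) (S : Finset α) (a : α) (ha : a ∉ S) (t : ℕ) :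
    TP1b A (insert a S) t = ∑ p ∈ antidiagonal t, if A a p.1 then TP1b A S p.2 else 0 := by
  have hmaps : ∀ T ∈ TP1s A (insert a S) t, ((T a, t - T a) : ℕ × ℕ) ∈ antidiagonal t := by
    intro T hT
    rw [TP1s_mem, sum_insert ha] at hT
    rw [HasAntidiagonal.mem_antidiagonal]
    omega
  rw [TP1b, card_eq_sum_card_fiberwise hmaps]
  refine sum_congr rfl fun p hp => ?_
  rw [HasAntidiagonal.mem_antidiagonal] at hp
  split_ifs with h0
  · rw [← TP1_fiber A S a ha p.1 p.2 h0, hp]
    congr 1
    refine filter_congr fun T hT => ?_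
    rw [TP1s_mem, sum_insert ha] at hT
    constructor
    · intro h
      rw [← h]
    · intro h
      ext
      · exact h
      · simp only
        omega
  · rw [card_eq_zero, filter_eq_empty_iff]
    intro T hT hcon
    have h1 := ((TP1s_mem _ _ _ _).mp hT).2 a (mem_insert_self _ _)
    apply h0
    rw [← hcon]
    exact h1

open scoped Classical in
lemma TP1_hasSum (A : α → ℕ → Prop) (G : α → ℝ) {z : ℝ} (hz0 : 0 < z)
    (hG : ∀ a, HasSum (fun i => if A a i then z ^ i else 0) (G a)) (S : Finset α) :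
    HasSum (fun t => (TP1b A S t : ℝ) * z ^ t) (∏ a ∈ S, G a) := by
  induction S using Finset.induction_on with
  | empty =>
    simp only [TP1_zero, prod_empty]
    have h := hasSum_ite_eq (0 : ℕ) (1 : ℝ)
    have e : (fun t : ℕ => (((if t = 0 then 1 else 0 : ℕ) : ℝ)) * z ^ t) =
        fun t => ite (t = 0) (1 : ℝ) 0 := by
      funext t
      split_ifs with h
      · subst h; simp
      · simp
    rw [e]
    exact h
  | insert a S ha ih =>
    have h5 := D1_cauchy (hG a) ih (fun i => by split_ifs <;> positivity)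
      (fun t => by positivity)
    rw [prod_insert ha]
    have h6 : (fun t => (TP1b A (insert a S) t : ℝ) * z ^ t) = fun t =>
        ∑ p ∈ antidiagonal t, (if A a p.1 then z ^ p.1 else 0) *
          ((TP1b A S p.2 : ℝ) * z ^ p.2) := by
      funext t
      rw [TP1_insert A S a ha]
      push_cast
      rw [sum_mul]
      refine sum_congr rfl fun p hp => ?_
      rw [HasAntidiagonal.mem_antidiagonal] at hp
      split_ifs with h
      · rw [← hp, pow_add]
        ring
      · simp
    rw [h6]
    exact h5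

lemma TP1_geoGe {z : ℝ} (hz0 : 0 < z) (hz1 : z < 1) (t : ℕ) :
    HasSum (fun i : ℕ => if t ≤ i then z ^ i else 0) ((1 - z)⁻¹ * z ^ t) := by
  have h1 := (hasSum_geometric_of_lt_one hz0.le hz1).mul_left (z ^ t)
  obtain ⟨f, hf⟩ : ∃ f : ℕ → ℝ, ∀ i, f i = if t ≤ i then z ^ i else 0 := ⟨_, fun i => rfl⟩
  have hf' : f = fun i : ℕ => if t ≤ i then z ^ i else 0 := funext hf
  rw [← hf']
  have h2 : HasSum (fun i : ℕ => f (i + t)) (z ^ t * (1 - z)⁻¹) := by
    have e : (fun i : ℕ => f (i + t)) = fun i => z ^ t * z ^ i := by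
      funext i
      rw [hf, if_pos (Nat.le_add_left t i), pow_add, mul_comm]
    rw [e]
    exact h1
  have h3 := (hasSum_nat_add_iff t).mp h2
  have h4 : ∑ i ∈ range t, f i = 0 := by
    refine sum_eq_zero fun i hi => ?_
    rw [hf, if_neg (not_le.mpr (mem_range.mp hi))]
  rw [h4, add_zero, mul_comm] at h3
  exact h3

lemma TP1_geoLt {z : ℝ} (hz0 : 0 < z) (hz1 : z < 1) (t : ℕ) :
    HasSum (fun i : ℕ => if t ≤ i then 0 else z ^ i) ((1 - z)⁻¹ * (1 - z ^ t)) := by
  have h1 := (hasSum_geometric_of_lt_one hz0.le hz1).sub (TP1_geoGe hz0 hz1 t)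
  have e1 : (fun i : ℕ => z ^ i - (if t ≤ i then z ^ i else 0)) =
      fun i => if t ≤ i then (0 : ℝ) else z ^ i := by
    funext i
    split_ifs <;> simp
  have e2 : (1 - z)⁻¹ - (1 - z)⁻¹ * z ^ t = (1 - z)⁻¹ * (1 - z ^ t) := by ring
  rw [e1, e2] at h1
  exact h1

/-- The condition on the value `i` at the cell `w`. -/
def TP1A {N n : ℕ} (ι : V n → V N) (t : ℕ) (S : Finset (V n)) (w : V N) (i : ℕ) : Prop :=
  ∀ v, ι v = w → (t ≤ i ↔ v ∈ S)

/-- The weight of a cell. -/
noncomputable def TP1h {n : ℕ} (q : ℝ) (S : Finset (V n)) (v : V n) : ℝ :=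
  if v ∈ S then q else 1 - q

lemma TP1_prod {n : ℕ} (q : ℝ) (S : Finset (V n)) :
    ∏ v, TP1h q S v = q ^ S.card * (1 - q) ^ (n * n - S.card) := by
  classical
  unfold TP1h
  rw [prod_ite, prod_const, prod_const]
  have h1 : (univ.filter fun v => v ∈ S) = S := by
    ext v
    simp
  have h2 : (univ.filter fun v => v ∉ S) = Sᶜ := by
    ext v
    simp
  rw [h1, h2, card_compl]
  congr 2
  simp

open scoped Classical in
lemma TP1_cell {N n : ℕ} (ι : V n → V N) (hι : Function.Injective ι) (t : ℕ) {z : ℝ} (hz0 : 0 < z)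
    (hz1 : z < 1) (S : Finset (V n)) (w : V N) :
    HasSum (fun i : ℕ => if TP1A ι t S w i then z ^ i else 0)
      ((1 - z)⁻¹ * ∏ v, if ι v = w then TP1h (z ^ t) S v else 1) := by
  by_cases hw : ∃ v, ι v = w
  · obtain ⟨v, rfl⟩ := hw
    have h1 : (∏ v', if ι v' = ι v then TP1h (z ^ t) S v' else 1) = TP1h (z ^ t) S v := by
      rw [prod_eq_single v]
      · rw [if_pos rfl]
      · intro b _ hb
        rw [if_neg fun h => hb (hι h)]
      · intro h
        exact absurd (mem_univ v) h
    rw [h1]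
    have h2 : ∀ i : ℕ, TP1A ι t S (ι v) i ↔ (t ≤ i ↔ v ∈ S) := by
      intro i
      constructor
      · intro h
        exact h v rfl
      · intro h v' hv'
        rw [hι hv']
        exact h
    unfold TP1h
    by_cases hv : v ∈ S
    · rw [if_pos hv]
      have e : (fun i : ℕ => if TP1A ι t S (ι v) i then z ^ i else 0) =
          fun i : ℕ => if t ≤ i then z ^ i else 0 := by
        funext i
        by_cases hi : t ≤ i
        · rw [if_pos ((h2 i).mpr (by simp [hi, hv])), if_pos hi]
        · rw [if_neg fun h => hi (((h2 i).mp h).mpr hv), if_neg hi]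
      rw [e]
      exact TP1_geoGe hz0 hz1 t
    · rw [if_neg hv]
      have e : (fun i : ℕ => if TP1A ι t S (ι v) i then z ^ i else 0) =
          fun i : ℕ => if t ≤ i then 0 else z ^ i := by
        funext i
        by_cases hi : t ≤ i
        · rw [if_neg fun h => hv (((h2 i).mp h).mp hi), if_pos hi]
        · rw [if_pos ((h2 i).mpr (by simp [hi, hv])), if_neg hi]
      rw [e]
      exact TP1_geoLt hz0 hz1 t
  · have h1 : (∏ v', if ι v' = w then TP1h (z ^ t) S v' else 1) = 1 := by
      refine prod_eq_one fun v _ => ?_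
      rw [if_neg fun h => hw ⟨v, h⟩]
    rw [h1, mul_one]
    have e : (fun i : ℕ => if TP1A ι t S w i then z ^ i else 0) =
        fun i : ℕ => z ^ i := by
      funext i
      rw [if_pos]
      intro v hv
      exact absurd ⟨v, hv⟩ hw
    rw [e]
    exact hasSum_geometric_of_lt_one hz0.le hz1

lemma TP1_total {N n : ℕ} (ι : V n → V N) (t : ℕ) (z : ℝ) (S : Finset (V n)) :
    ∏ w : V N, ((1 - z)⁻¹ * ∏ v, if ι v = w then TP1h (z ^ t) S v else 1) =
      ((1 - z)⁻¹) ^ (N * N) * ((z ^ t) ^ S.card * (1 - z ^ t) ^ (n * n - S.card)) := by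
  rw [prod_mul_distrib, prod_const, prod_comm, ← TP1_prod]
  congr 1
  · simp
  · refine prod_congr rfl fun v _ => ?_
    rw [prod_ite_eq]
    simp

open scoped Classical in
lemma TP1_cnt {N n : ℕ} (ι : V n → V N) (t D : ℕ) (Q : Finset (V n) → Prop) :
    cntT ι t D Q = ∑ S : Finset (V n), if Q S then
      TP1b (TP1A ι t S) (univ : Finset (V N)) D else 0 := by
  have h1 : ∀ T ∈ (expo N D).filter (fun T => Q (thr ι t T)),
      thr ι t T ∈ (univ : Finset (Finset (V n))) := fun T _ => mem_univ _
  rw [cntT, card_eq_sum_card_fiberwise h1]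
  refine sum_congr rfl fun S _ => ?_
  split_ifs with h
  · unfold TP1b expo
    congr 1
    ext T
    rw [mem_filter, mem_filter, TP1s_mem]
    constructor
    · rintro ⟨⟨h2, -⟩, h3⟩
      refine ⟨?_, ?_⟩
      · rw [mem_finsuppAntidiag] at h2
        exact h2
      · intro w _ v hv
        rw [← h3, thr, mem_filter, hv]
        simp
    · rintro ⟨h2, h3⟩
      have h4 : thr ι t T = S := by
        ext v
        rw [thr, mem_filter]
        have := h3 (ι v) (mem_univ _) v rfl
        simp [this]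
      refine ⟨⟨?_, ?_⟩, h4⟩
      · rw [mem_finsuppAntidiag]
        exact h2
      · rw [h4]
        exact h
  · rw [card_eq_zero, filter_eq_empty_iff]
    intro T hT hcon
    rw [mem_filter] at hT
    rw [hcon] at hT
    exact h hT.2

lemma TP1_gen {N n : ℕ} (ι : V n → V N) (hι : Function.Injective ι) (t : ℕ) {z : ℝ} (hz0 : 0 < z)
    (hz1 : z < 1) (Q : Finset (V n) → Prop) :
    HasSum (fun D => (cntT ι t D Q : ℝ) * z ^ D) (((1 - z)⁻¹) ^ (N * N) * pr n (z ^ t) Q) := by
  classical
  have h : HasSum (fun D => ∑ S : Finset (V n), if Q S then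
      (TP1b (TP1A ι t S) (univ : Finset (V N)) D : ℝ) * z ^ D else 0)
      (∑ S : Finset (V n), if Q S then ((1 - z)⁻¹) ^ (N * N) *
        ((z ^ t) ^ S.card * (1 - z ^ t) ^ (n * n - S.card)) else 0) := by
    refine hasSum_sum fun S _ => ?_
    split_ifs with hS
    · have h1 := TP1_hasSum (TP1A ι t S) _ hz0
        (TP1_cell ι hι t hz0 hz1 S) univ
      rw [TP1_total] at h1
      exact h1
    · exact hasSum_zero
  have e1 : (fun D => ∑ S : Finset (V n), if Q S then
      (TP1b (TP1A ι t S) (univ : Finset (V N)) D : ℝ) * z ^ D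
        else 0) = fun D => (cntT ι t D Q : ℝ) * z ^ D := by
    funext D
    rw [TP1_cnt]
    push_cast
    rw [sum_mul]
    refine sum_congr rfl fun S _ => ?_
    split_ifs <;> simp
  have e2 : (∑ S : Finset (V n), if Q S then ((1 - z)⁻¹) ^ (N * N) *
        ((z ^ t) ^ S.card * (1 - z ^ t) ^ (n * n - S.card)) else 0) =
      ((1 - z)⁻¹) ^ (N * N) * pr n (z ^ t) Q := by
    unfold pr
    rw [mul_sum]
    refine sum_congr rfl fun S _ => ?_
    split_ifs <;> simp
  rw [e1, e2] at h
  exact h

end TP1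

theorem TP1 : StmtTP1 := by
  classical
  intro N n ι P Q t c j z hι ht hz0 hz1 h
  have hP := (D1_gen N P hz0 hz1).mul_left (z ^ j)
  have hQ := TP1_gen ι hι t hz0 hz1 Q
  have hs : Summable fun d => (cntT ι t (d + j) Q : ℝ) * z ^ (d + j) :=
    (summable_nat_add_iff j).2 hQ.summable
  have h5 := hQ.summable.sum_add_tsum_nat_add j
  rw [hQ.tsum_eq] at h5
  have h6 : 0 ≤ ∑ i ∈ range j, (cntT ι t i Q : ℝ) * z ^ i :=
    sum_nonneg fun i _ => by positivity
  have hle := hasSum_le (fun d => by
    have h1 : (cnt N d P : ℝ) ≤ c * cntT ι t (d + j) Q := by exact_mod_cast h d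
    have h2 : 0 ≤ z ^ j * z ^ d := by positivity
    calc z ^ j * ((cnt N d P : ℝ) * z ^ d) = (cnt N d P : ℝ) * (z ^ j * z ^ d) := by ring
      _ ≤ (c * cntT ι t (d + j) Q) * (z ^ j * z ^ d) := by gcongr
      _ = (c : ℝ) * ((cntT ι t (d + j) Q : ℝ) * z ^ (d + j)) := by rw [pow_add]; ring)
    hP (hs.hasSum.mul_left (c : ℝ))
  have hz : 0 < 1 - z := by linarith
  have h4 : z ^ j * ∑ S : Finset (V N), (if P S then (z / (1 - z)) ^ S.card else 0) ≤
      c * (((1 - z)⁻¹) ^ (N * N) * pr n (z ^ t) Q) := by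
    refine le_trans hle (mul_le_mul_of_nonneg_left ?_ (Nat.cast_nonneg c))
    linarith
  rw [D1_pr N P hz1]
  calc z ^ j * ((1 - z) ^ (N * N) * ∑ S : Finset (V N),
        (if P S then (z / (1 - z)) ^ S.card else 0))
      = (1 - z) ^ (N * N) * (z ^ j * ∑ S : Finset (V N),
        (if P S then (z / (1 - z)) ^ S.card else 0)) := by ring
    _ ≤ (1 - z) ^ (N * N) * (c * (((1 - z)⁻¹) ^ (N * N) * pr n (z ^ t) Q)) :=
        mul_le_mul_of_nonneg_left h4 (by positivity)
    _ = c * pr n (z ^ t) Q * ((1 - z) * (1 - z)⁻¹) ^ (N * N) := by rw [mul_pow]; ring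
    _ = _ := by rw [mul_inv_cancel₀ hz.ne', one_pow, mul_one]

end Pool.Agent.Work.MP_499dc6_lc.TSD
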