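import Pool.Agent.Work.MP_499dc6_lc.TSD.Stmts

/-!
# M1: the identity of counts
-/

set_option autoImplicit false

namespace Pool.Agent.Work.MP_499dc6_lc.TSD

open Pool.Agent.Work.MP_104cea_lc.SumDet
open Pool.Agent.Work.MP_104cea_lc.SDB
open MvPolynomial Finset

namespace M1aux

theorem mem_expo {m d : ℕ} {T : V m →₀ ℕ} : T ∈ expo m d ↔ ∑ v, T v = d := by
  rw [expo, Finset.mem_finsuppAntidiag]
  exact ⟨fun h => h.1, fun h => ⟨h, Finset.subset_univ _⟩⟩

/-- The quotients of the exponents at the cells `ι v`. -/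
noncomputable def quo {N n : ℕ} (ι : V n → V N) (t : ℕ) (T : V N →₀ ℕ) : V n →₀ ℕ :=
  Finsupp.equivFunOnFinite.symm fun v => T (ι v) / t

/-- The inverse map. -/
noncomputable def comb {N n : ℕ} (ι : V n → V N) (t : ℕ) (μ : V N →₀ ℕ) (l : V n →₀ ℕ) :
    V N →₀ ℕ :=
  Finsupp.equivFunOnFinite.symm fun w => μ w + t * ∑ v, if ι v = w then l v else 0

variable {N n : ℕ} {ι : V n → V N} {t : ℕ}

theorem quo_apply (T : V N →₀ ℕ) (v : V n) : quo ι t T v = T (ι v) / t := rfl

theorem resid_image (T : V N →₀ ℕ) (v : V n) : resid ι t T (ι v) = T (ι v) % t := by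
  change (if ∃ v', ι v' = ι v then T (ι v) % t else T (ι v)) = _
  rw [if_pos ⟨v, rfl⟩]

theorem resid_other (T : V N →₀ ℕ) (w : V N) (h : ¬ ∃ v, ι v = w) : resid ι t T w = T w := by
  change (if ∃ v', ι v' = w then T w % t else T w) = _
  rw [if_neg h]

theorem comb_image (hι : Function.Injective ι) (μ : V N →₀ ℕ) (l : V n →₀ ℕ) (v : V n) :
    comb ι t μ l (ι v) = μ (ι v) + t * l v := by
  change μ (ι v) + t * (∑ v', if ι v' = ι v then l v' else 0) = _
  rw [Finset.sum_eq_single v]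
  · rw [if_pos rfl]
  · intro v' _ h
    rw [if_neg (fun h' => h (hι h'))]
  · intro h
    exact absurd (Finset.mem_univ v) h

theorem comb_other (μ : V N →₀ ℕ) (l : V n →₀ ℕ) (w : V N) (h : ¬ ∃ v, ι v = w) :
    comb ι t μ l w = μ w := by
  change μ w + t * (∑ v', if ι v' = w then l v' else 0) = _
  rw [Finset.sum_eq_zero, mul_zero, add_zero]
  intro v _
  rw [if_neg (fun h' => h ⟨v, h'⟩)]

theorem sum_comb (μ : V N →₀ ℕ) (l : V n →₀ ℕ) :
    ∑ w, comb ι t μ l w = ∑ w, μ w + t * ∑ v, l v := by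
  change ∑ w, (μ w + t * ∑ v, if ι v = w then l v else 0) = _
  rw [Finset.sum_add_distrib, ← Finset.mul_sum, Finset.sum_comm]
  congr 2
  apply Finset.sum_congr rfl
  intro v _
  rw [Finset.sum_ite_eq, if_pos (Finset.mem_univ _)]

theorem comb_resid (hι : Function.Injective ι) (T : V N →₀ ℕ) :
    comb ι t (resid ι t T) (quo ι t T) = T := by
  ext w : 1
  by_cases h : ∃ v, ι v = w
  · obtain ⟨v, rfl⟩ := h
    rw [comb_image hι, resid_image, quo_apply]
    exact Nat.mod_add_div _ _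
  · rw [comb_other _ _ w h, resid_other _ w h]

theorem resid_comb (hι : Function.Injective ι) (μ : V N →₀ ℕ) (l : V n →₀ ℕ)
    (hμ : ∀ v, μ (ι v) < t) : resid ι t (comb ι t μ l) = μ := by
  ext w : 1
  by_cases h : ∃ v, ι v = w
  · obtain ⟨v, rfl⟩ := h
    rw [resid_image, comb_image hι, Nat.add_mul_mod_self_left, Nat.mod_eq_of_lt (hμ v)]
  · rw [resid_other _ w h, comb_other _ _ w h]

theorem quo_comb (hι : Function.Injective ι) (ht : 1 ≤ t) (μ : V N →₀ ℕ) (l : V n →₀ ℕ)
    (hμ : ∀ v, μ (ι v) < t) : quo ι t (comb ι t μ l) = l := by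
  ext v : 1
  rw [quo_apply, comb_image hι, Nat.add_mul_div_left _ _ (by omega), Nat.div_eq_of_lt (hμ v),
    zero_add]

theorem sum_eq (hι : Function.Injective ι) (T : V N →₀ ℕ) :
    ∑ w, T w = ∑ w, resid ι t T w + t * ∑ v, quo ι t T v := by
  rw [← sum_comb (ι := ι), comb_resid hι]

theorem resid_lt (ht : 1 ≤ t) (T : V N →₀ ℕ) (v : V n) : resid ι t T (ι v) < t := by
  rw [resid_image]
  exact Nat.mod_lt _ (by omega)

theorem thr_eq (ht : 1 ≤ t) (T : V N →₀ ℕ) : thr ι t T = (quo ι t T).support := by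
  ext v
  rw [thr, Finset.mem_filter, Finsupp.mem_support_iff, quo_apply]
  constructor
  · rintro ⟨-, h⟩
    exact (Nat.div_pos h (by omega)).ne'
  · intro h
    refine ⟨Finset.mem_univ _, ?_⟩
    by_contra h2
    exact h (Nat.div_eq_of_lt (not_le.1 h2))

theorem card_support_le (l : V n →₀ ℕ) : l.support.card ≤ ∑ v, l v := by
  rw [Finset.card_eq_sum_ones]
  calc ∑ _v ∈ l.support, 1 ≤ ∑ v ∈ l.support, l v :=
        Finset.sum_le_sum fun v hv => Nat.one_le_iff_ne_zero.2 (Finsupp.mem_support_iff.1 hv)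
    _ ≤ ∑ v, l v := Finset.sum_le_sum_of_subset (Finset.subset_univ _)

/-- The arithmetic of the degrees. -/
theorem arith {s k d q : ℕ} (ht : 1 ≤ t) (h : d + t * q = s + t * k) (hk : k ≤ q) :
    d ≤ s ∧ t ∣ s - d ∧ (s - d) / t + k = q := by
  obtain ⟨j, rfl⟩ := Nat.exists_eq_add_of_le hk
  have h1 : d + t * j = s := by
    have : t * (k + j) = t * k + t * j := by ring
    omega
  have h2 : s - d = t * j := by omega
  refine ⟨by omega, ⟨j, h2⟩, ?_⟩
  rw [h2, Nat.mul_div_cancel_left _ (by omega)]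
  omega

end M1aux

open M1aux in
theorem M1 : StmtM1 := by
  classical
  intro N n t s k ι P ht hι hP
  have key : ∀ T : V N →₀ ℕ, T ∈ expo N (s + t * k) → P (thr ι t T) →
      (∑ w, resid ι t T w) ≤ s ∧ t ∣ s - (∑ w, resid ι t T w) ∧
        (s - (∑ w, resid ι t T w)) / t + k = ∑ v, quo ι t T v := by
    intro T hT hPT
    rw [mem_expo, sum_eq (t := t) hι] at hT
    refine arith ht hT ?_
    refine (hP _ hPT).trans ?_
    rw [thr_eq ht]
    exact card_support_le _
  unfold cntT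
  have hmaps : Set.MapsTo (fun T : V N →₀ ℕ => ∑ w, resid ι t T w)
      (((expo N (s + t * k)).filter fun T => P (thr ι t T) : Finset (V N →₀ ℕ)) :
        Set (V N →₀ ℕ)) (range (s + 1) : Finset ℕ) := by
    intro T hT
    rw [Finset.mem_coe, Finset.mem_filter] at hT
    rw [Finset.mem_coe, Finset.mem_range]
    have := (key T hT.1 hT.2).1
    exact Nat.lt_succ_of_le this
  rw [Finset.card_eq_sum_card_fiberwise hmaps]
  apply Finset.sum_congr rfl
  intro d hd
  have hds : d ≤ s := Nat.lt_succ_iff.1 (Finset.mem_range.1 hd)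
  by_cases hdiv : t ∣ s - d
  · rw [if_pos hdiv]
    unfold cnt
    rw [← Finset.card_product]
    symm
    refine Finset.card_nbij' (fun T => (resid ι t T, quo ι t T)) (fun p => comb ι t p.1 p.2)
      ?_ ?_ ?_ ?_
    · intro T hT
      rw [Finset.mem_coe, Finset.mem_filter, Finset.mem_filter] at hT
      obtain ⟨⟨hT1, hT2⟩, hT3⟩ := hT
      have h1 := key T hT1 hT2
      rw [hT3] at h1
      rw [Finset.mem_coe, Finset.mem_product, Finset.mem_filter, Finset.mem_filter]
      refine ⟨⟨mem_expo.2 hT3, resid_lt ht T⟩, mem_expo.2 h1.2.2.symm, ?_⟩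
      rw [← thr_eq ht]
      exact hT2
    · rintro ⟨μ, l⟩ hp
      rw [Finset.mem_coe, Finset.mem_product, Finset.mem_filter, Finset.mem_filter] at hp
      obtain ⟨⟨h1, h2⟩, h3, h4⟩ := hp
      dsimp only at h1 h2 h3 h4
      rw [Finset.mem_coe, Finset.mem_filter, Finset.mem_filter]
      rw [mem_expo] at h1 h3
      refine ⟨⟨?_, ?_⟩, ?_⟩
      · rw [mem_expo, sum_comb, h1, h3]
        obtain ⟨j, hj⟩ := hdiv
        rw [hj, Nat.mul_div_cancel_left _ (by omega)]
        have : t * (j + k) = t * j + t * k := by ring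
        omega
      · rw [thr_eq ht, quo_comb hι ht _ _ h2]
        exact h4
      · dsimp only
        rw [resid_comb hι _ _ h2]
        exact h1
    · intro T _
      exact comb_resid hι T
    · rintro ⟨μ, l⟩ hp
      rw [Finset.mem_coe, Finset.mem_product, Finset.mem_filter, Finset.mem_filter] at hp
      obtain ⟨⟨h1, h2⟩, h3, h4⟩ := hp
      dsimp only at h1 h2 h3 h4 ⊢
      rw [resid_comb hι _ _ h2, quo_comb hι ht _ _ h2]
  · rw [if_neg hdiv]
    symm
    rw [Finset.card_eq_zero, Finset.filter_eq_empty_iff]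
    intro T hT hT3
    rw [Finset.mem_filter] at hT
    have h1 := key T hT.1 hT.2
    rw [hT3] at h1
    exact hdiv h1.2.1

end Pool.Agent.Work.MP_499dc6_lc.TSD
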