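import Pool.Agent.Work.MP_499dc6_lc.TSD.M1
import Pool.Agent.Work.MP_104cea_lc.Bd.B05

/-!
# M2: the dimension of the ideal of minors, given the basis property
-/

set_option autoImplicit false

namespace Pool.Agent.Work.MP_499dc6_lc.TSD

open Pool.Agent.Work.MP_104cea_lc.SumDet
open Pool.Agent.Work.MP_104cea_lc.SDB
open MvPolynomial Finset

namespace M2aux

open M1aux

/-- The longest chain is at most the number of cells. -/
theorem lpp_le_count {m : ℕ} (S : Finset (V m)) : ∀ i j : ℕ,
    lpp (ind S) i j ≤ (S.filter fun v => (v.1 : ℕ) < i ∧ (v.2 : ℕ) < j).card := by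
  intro i
  induction i with
  | zero => intro j; exact Nat.zero_le _
  | succ i ihi =>
    intro j
    induction j with
    | zero => rw [lpp_zero_right]; exact Nat.zero_le _
    | succ j ihj =>
      rw [lpp_succ_succ]
      refine max_le (max_le ?_ ?_) ?_
      · refine ihj.trans (Finset.card_le_card ?_)
        intro v hv
        rw [Finset.mem_filter] at hv ⊢
        exact ⟨hv.1, hv.2.1, by omega⟩
      · refine (ihi (j + 1)).trans (Finset.card_le_card ?_)
        intro v hv
        rw [Finset.mem_filter] at hv ⊢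
        exact ⟨hv.1, by omega, hv.2.2⟩
      · by_cases h : ind S i j = true
        · have h1 : ∃ v ∈ S, (v.1 : ℕ) = i ∧ (v.2 : ℕ) = j := by
            unfold ind at h
            split_ifs at h with h2
            exact ⟨_, of_decide_eq_true h, rfl, rfl⟩
          obtain ⟨v, hv, hv1, hv2⟩ := h1
          rw [h]
          have h3 : insert v (S.filter fun v => (v.1 : ℕ) < i ∧ (v.2 : ℕ) < j) ⊆
              S.filter fun v => (v.1 : ℕ) < i + 1 ∧ (v.2 : ℕ) < j + 1 := by
            intro w hw
            rw [Finset.mem_insert] at hw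
            rw [Finset.mem_filter]
            rcases hw with rfl | hw
            · exact ⟨hv, by omega, by omega⟩
            · rw [Finset.mem_filter] at hw
              exact ⟨hw.1, by omega, by omega⟩
          have h4 := Finset.card_le_card h3
          rw [Finset.card_insert_of_notMem] at h4
          · refine le_trans ?_ h4
            exact Nat.add_le_add_right (ihi j) 1
          · intro hc
            rw [Finset.mem_filter] at hc
            omega
        · have h1 : ind S i j = false := by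
            cases hh : ind S i j
            · rfl
            · exact absurd hh h
          rw [h1]
          refine (Nat.add_le_add_right (ihi j) _).trans ?_
          refine (Nat.add_zero _).le.trans (Finset.card_le_card ?_)
          intro v hv
          rw [Finset.mem_filter] at hv ⊢
          exact ⟨hv.1, by omega, by omega⟩

theorem lpp_le_card {m : ℕ} (S : Finset (V m)) (i j : ℕ) : lpp (ind S) i j ≤ S.card :=
  (lpp_le_count S i j).trans (Finset.card_le_card (Finset.filter_subset _ _))

/-- Dimension of a finite sum of subspaces. -/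
theorem finrank_sup {F M α : Type} [Field F] [AddCommGroup M] [Module F M] (s : Finset α)
    (W : α → Submodule F M) (hW : ∀ a, FiniteDimensional F (W a)) :
    FiniteDimensional F (s.sup W : Submodule F M) ∧
      Module.finrank F (s.sup W : Submodule F M) ≤ ∑ a ∈ s, Module.finrank F (W a) := by
  classical
  induction s using Finset.induction_on with
  | empty =>
    rw [Finset.sup_empty, Finset.sum_empty, finrank_bot]
    exact ⟨inferInstance, le_rfl⟩
  | insert a s ha ih =>
    obtain ⟨ih1, ih2⟩ := ih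
    have := hW a
    rw [Finset.sup_insert, Finset.sum_insert ha]
    refine ⟨inferInstance, ?_⟩
    refine (Submodule.finrank_add_le_finrank_add_finrank _ _).trans ?_
    exact Nat.add_le_add_left ih2 _

variable {F : Type} [Field F] {N n t s : ℕ} {ι : V n → V N}
  {Q : Matrix (Fin n) (Fin n) (MvPolynomial (V N) F)}

/-- The substitution of the matrix `Q` in the generic matrix, times a monomial. -/
noncomputable def subst (Q : Matrix (Fin n) (Fin n) (MvPolynomial (V N) F)) (μ : V N →₀ ℕ) :
    MvPolynomial (V n) F →ₗ[F] MvPolynomial (V N) F :=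
  (LinearMap.mulLeft F (monomial μ (1 : F))).comp
    (aeval (fun v : V n => Q v.1 v.2) : MvPolynomial (V n) F →ₐ[F] MvPolynomial (V N) F).toLinearMap

theorem aev_mon (T : V N →₀ ℕ) :
    (aeval (fun v : V n => Q v.1 v.2) : MvPolynomial (V n) F →ₐ[F] MvPolynomial (V N) F)
      (monomial (quo ι t T) 1) = ∏ v : V n, Q v.1 v.2 ^ (T (ι v) / t) := by
  rw [aeval_monomial, Finsupp.prod_fintype _ _ (fun v => pow_zero _)]
  have h : algebraMap F (MvPolynomial (V N) F) 1 = 1 := map_one _
  rw [h, one_mul]
  rfl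

theorem aev_det {k : ℕ} (r c : Fin k → Fin n) :
    (aeval (fun v : V n => Q v.1 v.2) : MvPolynomial (V n) F →ₐ[F] MvPolynomial (V N) F)
      ((gen n F).submatrix r c).det = (Q.submatrix r c).det := by
  rw [AlgHom.map_det]
  congr 1
  apply Matrix.ext
  intro i j
  rw [AlgHom.mapMatrix_apply, Matrix.map_apply, Matrix.submatrix_apply, Matrix.submatrix_apply]
  change aeval (fun v : V n => Q v.1 v.2) (X (r i, c j) : MvPolynomial (V n) F) = Q (r i) (c j)
  rw [aeval_X]

theorem bas_mul (T : V N →₀ ℕ) {k : ℕ} (r c : Fin k → Fin n) :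
    bas ι t Q T * (Q.submatrix r c).det =
      subst Q (resid ι t T) (monomial (quo ι t T) 1 * ((gen n F).submatrix r c).det) := by
  change _ = monomial (resid ι t T) 1 * (aeval (fun v : V n => Q v.1 v.2) :
    MvPolynomial (V n) F →ₐ[F] MvPolynomial (V N) F) (monomial (quo ι t T) 1 * _)
  rw [map_mul, aev_mon, aev_det, bas, mul_assoc]

theorem bas_hom (hι : Function.Injective ι) (hQ : ∀ i j, (Q i j).IsHomogeneous t)
    {T : V N →₀ ℕ} (hT : T ∈ expo N s) : (bas ι t Q T).IsHomogeneous s := by
  rw [mem_expo, sum_eq (t := t) hι] at hT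
  unfold bas
  have h1 : (monomial (resid ι t T) (1 : F)).IsHomogeneous (∑ w, resid ι t T w) := by
    apply isHomogeneous_monomial
    exact Finsupp.degree_eq_sum _
  have h2 : (∏ v : V n, Q v.1 v.2 ^ (T (ι v) / t)).IsHomogeneous (t * ∑ v, quo ι t T v) := by
    rw [Finset.mul_sum]
    apply IsHomogeneous.prod
    intro v _
    exact (hQ v.1 v.2).pow _
  have h3 := h1.mul h2
  rw [hT] at h3
  exact h3

theorem mem_span_bas (hι : Function.Injective ι) (hQ : ∀ i j, (Q i j).IsHomogeneous t)
    (hli : LinearIndependent F (fun T : {T : V N →₀ ℕ // T ∈ expo N s} => bas ι t Q T.1))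
    {A : V N →₀ ℕ} (hA : A.degree = s) :
    monomial A (1 : F) ∈ Submodule.span F
      (Set.range fun T : {T : V N →₀ ℕ // T ∈ expo N s} => bas ι t Q T.1) := by
  have := B6_finite F (expo N s)
  have h1 : Submodule.span F
      (Set.range fun T : {T : V N →₀ ℕ // T ∈ expo N s} => bas ι t Q T.1) =
      B6_span F (expo N s) := by
    apply Submodule.eq_of_le_of_finrank_eq
    · rw [Submodule.span_le]
      rintro _ ⟨T, rfl⟩
      exact B6_expo (bas_hom hι hQ T.2)
    · rw [finrank_span_eq_card hli, B6_finrank, Fintype.card_coe]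
  rw [h1]
  exact B6_expo (isHomogeneous_monomial _ hA)

open scoped Classical in
/-- The exponents of the remainders in degree `d`. -/
noncomputable def Jd (ι : V n → V N) (t s d : ℕ) : Finset (V N →₀ ℕ) :=
  if t ∣ s - d then (expo N d).filter (fun T => ∀ v, T (ι v) < t) else ∅

/-- All pairs. -/
noncomputable def Ia (ι : V n → V N) (t s : ℕ) : Finset (Σ _ : ℕ, V N →₀ ℕ) :=
  (range (s + 1)).sigma (Jd ι t s)

/-- The pieces. -/
noncomputable def Wp (Q : Matrix (Fin n) (Fin n) (MvPolynomial (V N) F)) (k t s : ℕ)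
    (p : Σ _ : ℕ, V N →₀ ℕ) : Submodule F (MvPolynomial (V N) F) :=
  (MinSpan (gen n F) k ((s - p.1) / t)).map (subst Q p.2)

theorem mem_Ia (hι : Function.Injective ι) (ht : 1 ≤ t) {T : V N →₀ ℕ} (hT : T ∈ expo N s) :
    (⟨∑ w, resid ι t T w, resid ι t T⟩ : Σ _ : ℕ, V N →₀ ℕ) ∈ Ia ι t s ∧
      s - ∑ w, resid ι t T w = t * ∑ v, quo ι t T v := by
  rw [mem_expo, sum_eq (t := t) hι] at hT
  have hd : ∑ w, resid ι t T w ≤ s := by omega
  have hsub : s - ∑ w, resid ι t T w = t * ∑ v, quo ι t T v := by omega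
  refine ⟨?_, hsub⟩
  rw [Ia, Finset.mem_sigma]
  refine ⟨Finset.mem_range.2 (Nat.lt_succ_of_le hd), ?_⟩
  change resid ι t T ∈ Jd ι t s (∑ w, resid ι t T w)
  rw [Jd, if_pos ⟨_, hsub⟩, Finset.mem_filter]
  exact ⟨mem_expo.2 rfl, resid_lt ht T⟩

theorem bas_mem (hι : Function.Injective ι) (ht : 1 ≤ t) {T : V N →₀ ℕ} (hT : T ∈ expo N s)
    {k : ℕ} (r c : Fin k → Fin n) :
    bas ι t Q T * (Q.submatrix r c).det ∈ (Ia ι t s).sup (Wp Q k t s) := by
  obtain ⟨h1, h2⟩ := mem_Ia hι ht hT
  rw [bas_mul]
  refine Finset.le_sup (f := Wp Q k t s) h1 ?_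
  rw [Wp]
  refine Submodule.mem_map_of_mem (Submodule.subset_span ⟨quo ι t T, r, c, ?_, rfl⟩)
  change (quo ι t T).degree = (s - ∑ w, resid ι t T w) / t
  rw [h2, Nat.mul_div_cancel_left _ (by omega)]
  exact Finsupp.degree_eq_sum _

theorem incl (hι : Function.Injective ι) (ht : 1 ≤ t) (hQ : ∀ i j, (Q i j).IsHomogeneous t)
    (hli : LinearIndependent F (fun T : {T : V N →₀ ℕ // T ∈ expo N s} => bas ι t Q T.1))
    (k : ℕ) : MinSpanT Q k s ≤ (Ia ι t s).sup (Wp Q k t s) := by
  rw [MinSpanT, Submodule.span_le]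
  rintro _ ⟨A, r, c, hA, rfl⟩
  have h2 := mem_span_bas hι hQ hli hA
  have h3 : Submodule.span F
      (Set.range fun T : {T : V N →₀ ℕ // T ∈ expo N s} => bas ι t Q T.1) ≤
      ((Ia ι t s).sup (Wp Q k t s)).comap (LinearMap.mulRight F (Q.submatrix r c).det) := by
    rw [Submodule.span_le]
    rintro _ ⟨T, rfl⟩
    exact bas_mem hι ht T.2 r c
  exact h3 h2

end M2aux

open M1aux M2aux in
theorem M2 (h1 : StmtM1) (hB6 : StmtB6) : StmtM2 := by
  intro F _ _ N n κ t s ι Q ht hι hQ hli
  have hWf : ∀ p, FiniteDimensional F (Wp Q (κ + 1) t s p) := by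
    intro p
    have := (hB6 F n κ ((s - p.1) / t)).1
    rw [Wp]
    infer_instance
  obtain ⟨hf, hle⟩ := finrank_sup (Ia ι t s) (Wp Q (κ + 1) t s) hWf
  have hincl := incl hι ht hQ hli (κ + 1)
  have hfT : FiniteDimensional F (MinSpanT Q (κ + 1) s) := Submodule.finiteDimensional_of_le hincl
  refine ⟨hfT, ?_⟩
  refine ((Submodule.finrank_mono hincl).trans hle).trans ?_
  have h5 := h1 N n t s (κ + 1) ι (fun S => κ + 1 ≤ lpp (ind S) n n) ht hι
    (fun S hS => le_trans hS (lpp_le_card S n n))
  rw [← h5, Ia, Finset.sum_sigma]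
  apply Finset.sum_le_sum
  intro d _
  have h6 : ∀ μ ∈ Jd ι t s d, Module.finrank F (Wp Q (κ + 1) t s ⟨d, μ⟩) ≤
      cnt n ((s - d) / t + (κ + 1)) (fun S => κ + 1 ≤ lpp (ind S) n n) := by
    intro μ _
    obtain ⟨g1, g2⟩ := hB6 F n κ ((s - d) / t)
    rw [Wp]
    exact (Submodule.finrank_map_le _ _).trans g2
  refine (Finset.sum_le_sum h6).trans ?_
  rw [Finset.sum_const, smul_eq_mul, Jd]
  split_ifs with h
  · exact le_rfl
  · rw [Finset.card_empty, zero_mul]

end Pool.Agent.Work.MP_499dc6_lc.TSD
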