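import Pool.Agent.Work.MP_499dc6_lc.TSD.Stmts
import Pool.Agent.Work.MP_104cea_lc.Bd.B05

/-!
# TSD, item TS4: the product rule for determinants of forms of degree `t`
-/

set_option autoImplicit false

namespace Pool.Agent.Work.MP_499dc6_lc.TSD

open Pool.Agent.Work.MP_104cea_lc.SumDet
open Pool.Agent.Work.MP_104cea_lc.SDB
open MvPolynomial

namespace TS4

variable {σ F : Type} [Field F] {n : ℕ} {Q : Matrix (Fin n) (Fin n) (MvPolynomial σ F)}

theorem mono {k s : ℕ} (A : σ →₀ ℕ) {g : MvPolynomial σ F} (hg : g ∈ MinSpanT Q k s) :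
    monomial A 1 * g ∈ MinSpanT Q k (A.degree + s) := by
  unfold MinSpanT at hg
  induction hg using Submodule.span_induction with
  | mem x hx =>
    obtain ⟨B, r, c, hB, rfl⟩ := hx
    refine Submodule.subset_span ⟨A + B, r, c, ?_, ?_⟩
    · rw [map_add, hB]
    · rw [← mul_assoc, monomial_mul, one_mul]
  | zero => rw [mul_zero]; exact Submodule.zero_mem _
  | add x y _ _ hx hy => rw [mul_add]; exact Submodule.add_mem _ hx hy
  | smul a x _ hx => rw [mul_smul_comm]; exact Submodule.smul_mem _ _ hx

theorem mul {k s d : ℕ} {h g : MvPolynomial σ F} (hh : h.IsHomogeneous d)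
    (hg : g ∈ MinSpanT Q k s) : h * g ∈ MinSpanT Q k (d + s) := by
  rw [h.as_sum, Finset.sum_mul]
  refine Submodule.sum_mem _ fun B hB => ?_
  have h1 : B.degree = d := by
    by_contra h2
    exact (mem_support_iff.1 hB) (hh.coeff_eq_zero h2)
  have h2 : monomial B (coeff B h) = coeff B h • (monomial B 1 : MvPolynomial σ F) := by
    rw [smul_monomial, smul_eq_mul, mul_one]
  rw [h2, smul_mul_assoc, ← h1]
  exact Submodule.smul_mem _ _ (mono B hg)

theorem minor {k : ℕ} (r c : Fin k → Fin n) : (Q.submatrix r c).det ∈ MinSpanT Q k 0 :=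
  Submodule.subset_span ⟨0, r, c, by simp, by simp⟩

theorem sgn (j : ℕ) : ((-1 : MvPolynomial σ F)) ^ j = C ((-1) ^ j) := by
  rw [map_pow, map_neg, map_one]

theorem expand {t : ℕ} (hQ : ∀ i j, (Q i j).IsHomogeneous t) {k : ℕ}
    (r c : Fin (k + 1) → Fin n) : (Q.submatrix r c).det ∈ MinSpanT Q k t := by
  rw [Matrix.det_succ_column_zero]
  refine Submodule.sum_mem _ fun i _ => ?_
  rw [sgn, mul_assoc, C_mul']
  refine Submodule.smul_mem _ _ ?_
  rw [Matrix.submatrix_submatrix, Matrix.submatrix_apply]
  have h2 := mul (hQ (r i) (c 0)) (minor (Q := Q) (r ∘ i.succAbove) (c ∘ Fin.succ))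
  rw [add_zero] at h2
  exact h2

theorem pminor {t : ℕ} (hQ : ∀ i j, (Q i j).IsHomogeneous t) {k : ℕ} (v : σ)
    (r c : Fin (k + 1) → Fin n) : pderiv v (Q.submatrix r c).det ∈ MinSpanT Q k (t - 1) := by
  rw [B1_det (pderiv v)]
  refine Submodule.sum_mem _ fun a _ => ?_
  rw [Matrix.det_succ_column _ a]
  refine Submodule.sum_mem _ fun i _ => ?_
  rw [Matrix.updateCol_self, Matrix.submatrix_updateCol_succAbove, Matrix.submatrix_apply, sgn,
    mul_assoc, C_mul']
  refine Submodule.smul_mem _ _ ?_
  have h1 := mul ((hQ (r i) (c a)).pderiv (i := v))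
    (minor (Q := Q) (fun x => r (i.succAbove x)) (fun x => c (a.succAbove x)))
  rw [add_zero] at h1
  rw [Matrix.submatrix_submatrix]
  exact h1

theorem step {t : ℕ} (ht : 1 ≤ t) (hQ : ∀ i j, (Q i j).IsHomogeneous t) {k s : ℕ} (v : σ)
    {g : MvPolynomial σ F} (hg : g ∈ MinSpanT Q (k + 1) s) :
    pderiv v g ∈ MinSpanT Q k (s + (t - 1)) := by
  unfold MinSpanT at hg
  induction hg using Submodule.span_induction with
  | mem x hx =>
    obtain ⟨A, r, c, hA, rfl⟩ := hx
    rw [Derivation.leibniz, smul_eq_mul, smul_eq_mul]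
    refine Submodule.add_mem _ ?_ ?_
    · have h1 := mono A (pminor hQ v r c)
      rwa [hA] at h1
    · rw [pderiv_monomial, one_mul]
      by_cases h0 : A v = 0
      · rw [h0, Nat.cast_zero, monomial_zero, mul_zero]
        exact Submodule.zero_mem _
      · have h2 : (A - Finsupp.single v 1).degree + 1 = s := by
          have h3 : A - Finsupp.single v 1 + Finsupp.single v 1 = A := by
            refine tsub_add_cancel_of_le ?_
            rw [Finsupp.single_le_iff]
            exact Nat.one_le_iff_ne_zero.2 h0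
          have h4 := congrArg Finsupp.degree h3
          rw [map_add, Finsupp.degree_single] at h4
          rw [h4, hA]
        have h3 : monomial (A - Finsupp.single v 1) ((A v : ℕ) : F) =
            (A v : F) • (monomial (A - Finsupp.single v 1) 1 : MvPolynomial σ F) := by
          rw [smul_monomial, smul_eq_mul, mul_one]
        rw [mul_comm, h3, smul_mul_assoc]
        refine Submodule.smul_mem _ _ ?_
        have h5 := mono (A - Finsupp.single v 1) (expand hQ r c)
        have h6 : (A - Finsupp.single v 1).degree + t = s + (t - 1) := by omega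
        rwa [h6] at h5
  | zero => rw [map_zero]; exact Submodule.zero_mem _
  | add x y _ _ hx hy => rw [map_add]; exact Submodule.add_mem _ hx hy
  | smul a x _ hx => rw [Derivation.map_smul]; exact Submodule.smul_mem _ _ hx

theorem fold {t : ℕ} (ht : 1 ≤ t) (hQ : ∀ i j, (Q i j).IsHomogeneous t) {s : ℕ}
    {g : MvPolynomial σ F} (hg : g ∈ MinSpanT Q n s) (D : List σ) : ∀ k : ℕ, D.length + k = n →
    D.foldr (fun v g => pderiv v g) g ∈ MinSpanT Q k (s + (t - 1) * D.length) := by
  induction D with
  | nil =>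
    intro k hk
    simp only [List.length_nil, zero_add] at hk
    subst hk
    simpa using hg
  | cons v D ih =>
    intro k hk
    rw [List.foldr_cons]
    rw [List.length_cons] at hk
    have h1 := step ht hQ v (ih (k + 1) (by omega))
    have h2 : s + (t - 1) * D.length + (t - 1) = s + (t - 1) * (v :: D).length := by
      rw [List.length_cons]
      ring
    rwa [h2] at h1

end TS4

/-- Item TS4. -/
theorem TS4 : StmtTS4 := by
  intro F σ _ n K t e s q Q hK ht hq hQ
  have h0 : q * Q.det ∈ MinSpanT Q n e := by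
    have h1 : Q.det ∈ MinSpanT Q n 0 := by
      have h2 := TS4.minor (Q := Q) (id : Fin n → Fin n) id
      simpa using h2
    simpa using TS4.mul hq h1
  unfold SP
  refine Submodule.span_le.2 ?_
  rintro p ⟨D, A, hD, hA, rfl⟩
  have h1 := TS4.mono A (TS4.fold ht hQ h0 D (n - K) (by omega))
  rw [hA, hD] at h1
  have h2 : s + (e + (t - 1) * K) = s + e + (t - 1) * K := by ring
  rwa [h2] at h1

end Pool.Agent.Work.MP_499dc6_lc.TSD
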