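import Mathlib
import Pool.Agent.Work.MP_499dc6_lc.TSD.Stmts
import Pool.Agent.Work.MP_104cea_lc.Bd.B05

/-!
# Sums of determinants of matrices of polynomials of bounded degree: the numeric part
-/

set_option autoImplicit false

namespace Pool.Agent.Work.MP_499dc6_lc.TSD

open Pool.Agent.Work.MP_104cea_lc.SumDet
open Pool.Agent.Work.MP_104cea_lc.SDB
open Filter Topology

/-- The factor of the good supports. -/
theorem TE2_two {a : ℕ} {τ : ℝ} (ht0 : 0 ≤ τ) (ht1 : τ ≤ Real.exp (-(a : ℝ))) :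
    (2 : ℝ) ^ a / 2 ≤ (2 - τ) ^ a := by
  have h2 : (a : ℝ) * τ ≤ 1 := by
    have h3 := Real.add_one_le_exp (a : ℝ)
    have h4 : (a : ℝ) * Real.exp (-(a : ℝ)) ≤ 1 := by
      rw [Real.exp_neg, ← div_eq_mul_inv, div_le_one (Real.exp_pos _)]
      linarith
    exact (mul_le_mul_of_nonneg_left ht1 (Nat.cast_nonneg a)).trans h4
  have ht2 : τ ≤ 1 := ht1.trans (Real.exp_le_one_iff.2 (by simp))
  have h5 : (2 - τ) ^ a = 2 ^ a * (1 + (-(τ / 2))) ^ a := by
    rw [← mul_pow]
    congr 1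
    ring
  have h6 := one_add_mul_le_pow (a := -(τ / 2)) (by linarith) a
  rw [h5]
  have h7 : (1 : ℝ) / 2 ≤ (1 + (-(τ / 2))) ^ a := by
    refine le_trans ?_ h6
    nlinarith
  have h8 : (0 : ℝ) < 2 ^ a := by positivity
  nlinarith

/-- The quotient of the two sides. -/
theorem TE2_alg {n K ρ q α u Y y : ℝ} (hn : 0 < n) (hK : 0 < K) (hρ0 : 0 < ρ)
    (hq : 1 - ρ ≤ q) (hq1 : q ≤ 1) (hq12 : 1 / 2 ≤ q) (hα : α = K / (8 * n * ρ))
    (hu : u = 4 * n * ρ / K) (hY : Y = u / α) (hy : y = K / (4 * n)) (hy1 : y ≤ 1) :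
    (1 - y) ^ 2 * ((1 + u) * (1 + q / α)) ≤ q * (Y * ((1 + α) * (1 + q / α / Y))) := by
  have hα0 : 0 < α := by rw [hα]; positivity
  have hu0 : 0 < u := by rw [hu]; positivity
  have hy0 : 0 < y := by rw [hy]; positivity
  have g1 : ρ * α = y / 2 := by rw [hα, hy]; field_simp; ring
  have g2 : y * u = ρ := by rw [hy, hu]; field_simp
  clear hα hu hy
  have f1 : (1 - y) * (α + q) ≤ q * (1 + α) := by
    have e2 : q * (1 + α) - (1 - y) * (α + q) = y * (α + q) - (1 - q) * α := by ring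
    have e3 : y / 2 ≤ y * (α + q) := by
      have : y * (1 / 2) ≤ y * (α + q) := mul_le_mul_of_nonneg_left (by linarith) hy0.le
      linarith
    have e4 : (1 - q) * α ≤ ρ * α := mul_le_mul_of_nonneg_right (by linarith) hα0.le
    linarith
  have f2 : (1 - y) * (1 + u) ≤ u + q := by
    have e2 : (u + q) - (1 - y) * (1 + u) = y + y * u - (1 - q) := by ring
    linarith
  have e1 : q * (Y * ((1 + α) * (1 + q / α / Y))) = q * (1 + α) * (u + q) / α := by
    rw [hY]
    field_simp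
  have e2 : (1 - y) ^ 2 * ((1 + u) * (1 + q / α)) =
      (1 - y) * (α + q) * ((1 - y) * (1 + u)) / α := by
    field_simp
  rw [e1, e2]
  apply div_le_div_of_nonneg_right _ hα0.le
  apply mul_le_mul f1 f2
  · exact mul_nonneg (by linarith) (by linarith)
  · exact mul_nonneg (by linarith) (by linarith)

/-- The core estimate. -/
theorem TE2_core {m n t e r K a M : ℕ} {x : ℝ} (hm : 1 ≤ m) (ht : 1 ≤ t) (hmn : m ≤ t * n)
    (ha : 1 ≤ a) (hK : 1 ≤ K) (hx : x = t * n / m) (hax : 1024 * (a : ℝ) ^ 2 * x ≤ 2 ^ a)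
    (hM2 : 2 * a * t ≤ M) (hKm : K * beta a (M - 1) ≤ m)
    (hK2 : (m : ℝ) ≤ K * (12 * a * M)) (he : 2 * a * (e : ℝ) ≤ K * M)
    (h : IneqT m n t e r) : Real.exp K ≤ r := by
  have hmR : (1 : ℝ) ≤ m := by exact_mod_cast hm
  have htR : (1 : ℝ) ≤ t := by exact_mod_cast ht
  have hmnR : (m : ℝ) ≤ t * n := by exact_mod_cast hmn
  have haR : (1 : ℝ) ≤ a := by exact_mod_cast ha
  have hKR : (1 : ℝ) ≤ K := by exact_mod_cast hK
  have hn1 : 1 ≤ n := by
    rcases Nat.eq_zero_or_pos n with h0 | h0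
    · rw [h0, mul_zero] at hmn
      omega
    · exact h0
  have hnR : (1 : ℝ) ≤ n := by exact_mod_cast hn1
  have hx1 : 1 ≤ x := by rw [hx, le_div_iff₀ (by linarith)]; linarith
  set N : ℝ := 2 ^ a with hN
  have hN0 : 0 < N := by positivity
  have h2a : 1 ≤ 2 ^ a := Nat.one_le_two_pow
  have hM2R : 2 * (a : ℝ) * t ≤ M := by exact_mod_cast hM2
  have hM1 : 1 ≤ M := by
    have : 1 * 1 * 1 ≤ 2 * a * t := Nat.mul_le_mul (Nat.mul_le_mul (by norm_num) ha) ht
    omega
  have hMR : (1 : ℝ) ≤ M := by exact_mod_cast hM1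
  have hM0 : (0 : ℝ) < M := by linarith
  have hβ : 2 * (a : ℝ) * M ≤ beta a (M - 1) := by
    have h0 : 2 * a * M ≤ beta a (M - 1) := by
      unfold beta
      rw [Nat.sub_add_cancel hM1]
      have : 1 * 1 ≤ (a + 1) * 2 ^ a := Nat.mul_le_mul (by omega) h2a
      have h3 : 2 * ((a + 1) * 2 ^ a + a * M) = 2 * ((a + 1) * 2 ^ a) + 2 * a * M := by ring
      omega
    exact_mod_cast h0
  have hKβ : (K : ℝ) * (2 * a * M) ≤ t * n := by
    have h1 : (K : ℝ) * beta a (M - 1) ≤ m := by exact_mod_cast hKm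
    have h2 := mul_le_mul_of_nonneg_left hβ (Nat.cast_nonneg (α := ℝ) K)
    linarith
  have h4K : 4 * (K : ℝ) ≤ n := by
    have h1 : (K : ℝ) * (2 * a * (2 * a * t)) ≤ t * n :=
      le_trans (by gcongr) hKβ
    have h2 : 4 * (K : ℝ) * t ≤ K * (2 * a * (2 * a * t)) := by
      have h3 : (1 : ℝ) ≤ a * a := by nlinarith
      have h4 : (K : ℝ) * (2 * a * (2 * a * t)) = 4 * K * t * (a * a) := by ring
      rw [h4]
      exact le_mul_of_one_le_right (by positivity) h3
    have h5 : 4 * (K : ℝ) * t ≤ n * t := by linarith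
    exact le_of_mul_le_mul_right h5 (by linarith)
  have hKnR : (K : ℝ) < n := by linarith
  have hKn : K < n := by exact_mod_cast hKnR
  set ρ : ℝ := a / M with hρ
  have hρ0 : 0 < ρ := by positivity
  have hρM : ρ * M = a := by rw [hρ]; field_simp
  have hρ1 : ρ ≤ 1 / 2 := by
    rw [hρ, div_le_div_iff₀ hM0 (by norm_num)]
    have : (a : ℝ) * 1 ≤ a * t := mul_le_mul_of_nonneg_left htR (by linarith)
    linarith
  set ρh : ℝ := t * ρ with hρh
  have hρh0 : 0 < ρh := by positivity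
  have hρh1 : ρh ≤ 1 / 2 := by
    rw [hρh, hρ, mul_div_assoc', div_le_div_iff₀ hM0 (by norm_num)]
    linarith
  set z : ℝ := 1 - ρ with hz
  have hz0 : 0 < z := by linarith
  have hz1 : z < 1 := by linarith
  set q : ℝ := z ^ t with hq
  have hq0 : 0 < q := by positivity
  have hq1 : q ≤ 1 := pow_le_one₀ hz0.le hz1.le
  have hqρ : 1 - ρh ≤ q := by
    have h1 := one_add_mul_le_pow (a := -ρ) (by linarith) t
    have h2 : (1 + -ρ) = z := by rw [hz]; ring
    rw [h2] at h1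
    rw [hq, hρh]
    linarith
  have hq12 : 1 / 2 ≤ q := by linarith
  set α : ℝ := K / (8 * n * ρh) with hα
  have hα0 : 0 < α := by positivity
  set u : ℝ := 4 * n * ρh / K with hu
  have hu0 : 0 < u := by positivity
  set Y : ℝ := u / α with hY
  have hY0 : 0 < Y := by positivity
  have hαY : α * Y = u := by rw [hY]; field_simp
  have hYv : Y = 32 * (n * ρh / K) ^ 2 := by
    rw [hY, hu, hα]
    field_simp
    ring
  have hnρ1 : 1 ≤ n * ρh / K := by
    rw [le_div_iff₀ (by linarith), one_mul]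
    have h1 := mul_le_mul_of_nonneg_right hKβ hρ0.le
    have h2 : (K : ℝ) * (2 * a * M) * ρ = K * (2 * a * a) := by
      calc (K : ℝ) * (2 * a * M) * ρ = K * (2 * a * (ρ * M)) := by ring
        _ = K * (2 * a * a) := by rw [hρM]
    have h3 : (K : ℝ) * 1 ≤ K * (2 * a * a) :=
      mul_le_mul_of_nonneg_left (by nlinarith) (by linarith)
    have h4 : (t : ℝ) * n * ρ = n * ρh := by rw [hρh]; ring
    rw [h2, h4] at h1
    linarith
  have hY1 : 1 ≤ Y := by rw [hYv]; nlinarith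
  have hYle : Y ≤ 4608 * a ^ 4 * x ^ 2 := by
    have h1 : n * ρh / K ≤ 12 * a ^ 2 * x := by
      rw [div_le_iff₀ (by linarith), hx]
      have h2 : (n : ℝ) * ρh * m ≤ n * ρh * (K * (12 * a * M)) := by gcongr
      have h3 : (n : ℝ) * ρh * (K * (12 * a * M)) = 12 * a ^ 2 * (t * n) * K := by
        calc (n : ℝ) * ρh * (K * (12 * a * M)) = (t * n) * (K * (12 * a * (ρ * M))) := by
              rw [hρh]; ring
          _ = 12 * a ^ 2 * (t * n) * K := by rw [hρM]; ring
      rw [h3] at h2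
      have h4 : 12 * (a : ℝ) ^ 2 * (t * n / m) * K = 12 * a ^ 2 * (t * n) * K / m := by ring
      rw [h4, le_div_iff₀ (by linarith)]
      exact h2
    have h5 := pow_le_pow_left₀ (by positivity) h1 2
    have h6 : (12 * (a : ℝ) ^ 2 * x) ^ 2 = 144 * a ^ 4 * x ^ 2 := by ring
    rw [h6] at h5
    rw [hYv]
    linarith
  -- the inequality
  have key := h K a (M - 1) z α Y hK hKn ha hKm hz0 hz1 hα0 hY1
  rw [Nat.sub_add_cancel hM1, hαY, ← hq] at key
  set D : ℝ := (1 + u) * (1 + q / α) with hD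
  have hD0 : 0 < D := by positivity
  set y : ℝ := K / (4 * n) with hy
  have hy0 : 0 ≤ y := by positivity
  have hy1 : y ≤ 1 / 4 := by
    rw [hy, div_le_div_iff₀ (by linarith) (by norm_num)]
    linarith
  have f3 : (1 - y) ^ 2 * D ≤ q * (Y * ((1 + α) * (1 + q / α / Y))) :=
    TE2_alg (by linarith) (by linarith) hρh0 hqρ hq1 hq12 hα hu hY hy (by linarith)
  have f4 : Real.exp (-(K : ℝ)) * D ^ n ≤ (q * (Y * ((1 + α) * (1 + q / α / Y)))) ^ n := by
    have e1 := E2_exp_lower hy0 (by linarith)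
    have e2 : Real.exp (-(4 * y)) ≤ (1 - y) ^ 2 := by
      have := pow_le_pow_left₀ (Real.exp_pos _).le e1 2
      refine le_trans (le_of_eq ?_) this
      rw [← Real.exp_nat_mul]
      congr 1
      push_cast
      ring
    have e3 : Real.exp (-(K : ℝ)) = Real.exp (-(4 * y)) ^ n := by
      rw [← Real.exp_nat_mul]
      congr 1
      rw [hy]
      field_simp
    rw [e3, ← mul_pow]
    apply pow_le_pow_left₀ (by positivity)
    exact (mul_le_mul_of_nonneg_right e2 hD0.le).trans f3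
  have f5 : Real.exp (-(K : ℝ)) ≤ z ^ e := by
    have e1 := E2_exp_lower hρ0.le hρ1
    have e2 := pow_le_pow_left₀ (Real.exp_pos _).le e1 e
    refine le_trans ?_ e2
    rw [← Real.exp_nat_mul, Real.exp_le_exp]
    have e3 : 2 * ρ * e ≤ K := by
      have : 2 * ρ * e = 2 * a * e / M := by rw [hρ]; ring
      rw [this, div_le_iff₀ hM0]
      exact he
    linarith
  have f6 : (N ^ 2 / 4) ^ K ≤ (2 - z ^ M) ^ (2 * a * K) := by
    have e1 : z ^ M ≤ Real.exp (-(a : ℝ)) := by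
      have e0 := Real.add_one_le_exp (-ρ)
      have e01 : z ≤ Real.exp (-ρ) := by rw [hz]; linarith
      have e02 := pow_le_pow_left₀ hz0.le e01 M
      rw [← Real.exp_nat_mul] at e02
      refine e02.trans (le_of_eq ?_)
      congr 1
      rw [← hρM]
      ring
    have e2 := TE2_two (by positivity) e1
    have e3 := pow_le_pow_left₀ (by positivity) e2 2
    have e4 := pow_le_pow_left₀ (by positivity) e3 K
    have e5 : (N ^ 2 / 4) ^ K = ((2 ^ a / 2) ^ 2) ^ K := by
      rw [hN]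
      congr 1
      ring
    rw [e5]
    refine e4.trans (le_of_eq ?_)
    rw [← pow_mul, ← pow_mul]
    congr 1
    ring
  have f7 : Real.exp 3 * Y ≤ N ^ 2 / 4 := E2_main haR hx1 hax hYle
  have f8 : Real.exp (2 * K) * (Y ^ K * Real.exp (K : ℝ)) ≤ (2 - z ^ M) ^ (2 * a * K) := by
    refine le_trans ?_ f6
    have e1 := pow_le_pow_left₀ (by positivity) f7 K
    refine le_trans (le_of_eq ?_) e1
    rw [mul_pow, ← Real.exp_nat_mul]
    have e2 : (K : ℝ) * 3 = 2 * K + K := by ring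
    rw [e2, Real.exp_add]
    ring
  have g0 : 0 ≤ 2 - z ^ M := by
    have := pow_le_one₀ (n := M) hz0.le hz1.le
    linarith
  have g01 : 0 ≤ z ^ e * (2 - z ^ M) ^ (2 * a * K) :=
    mul_nonneg (by positivity) (pow_nonneg g0 _)
  -- combine
  have g1 : z ^ (t * n + e) * (2 - z ^ M) ^ (2 * a * K) * Y ^ (n - K) *
      ((1 + α) * (1 + q / α / Y)) ^ n ≤ r * D ^ n := by
    refine le_trans ?_ key
    have e1 : z ^ (t * n + e) ≤ z ^ (t * n + e - K) :=
      pow_le_pow_of_le_one hz0.le hz1.le (Nat.sub_le _ _)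
    gcongr
  have g2 : z ^ (t * n + e) * (2 - z ^ M) ^ (2 * a * K) * Y ^ (n - K) *
      ((1 + α) * (1 + q / α / Y)) ^ n * Y ^ K =
      z ^ e * (2 - z ^ M) ^ (2 * a * K) * (q * (Y * ((1 + α) * (1 + q / α / Y)))) ^ n := by
    have e1 : Y ^ n = Y ^ (n - K) * Y ^ K := by rw [← pow_add, Nat.sub_add_cancel hKn.le]
    have e2 : z ^ (t * n) = q ^ n := by rw [hq, pow_mul]
    rw [mul_pow q, mul_pow Y, e1, pow_add, e2]
    ring
  have g3 : Real.exp (-(K : ℝ)) * (Real.exp (2 * K) * (Y ^ K * Real.exp (K : ℝ))) *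
      (Real.exp (-(K : ℝ)) * D ^ n) ≤ r * D ^ n * Y ^ K := by
    calc Real.exp (-(K : ℝ)) * (Real.exp (2 * K) * (Y ^ K * Real.exp (K : ℝ))) *
          (Real.exp (-(K : ℝ)) * D ^ n)
        ≤ z ^ e * (2 - z ^ M) ^ (2 * a * K) *
          (q * (Y * ((1 + α) * (1 + q / α / Y)))) ^ n := by gcongr
      _ = _ := g2.symm
      _ ≤ _ := mul_le_mul_of_nonneg_right g1 (by positivity)
  have g4 : Real.exp (-(K : ℝ)) * (Real.exp (2 * K) * (Y ^ K * Real.exp (K : ℝ))) *
      (Real.exp (-(K : ℝ)) * D ^ n) = Real.exp (K : ℝ) * (D ^ n * Y ^ K) := by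
    have e1 : Real.exp (-(K : ℝ)) * Real.exp (2 * K) * Real.exp (-(K : ℝ)) = 1 := by
      rw [← Real.exp_add, ← Real.exp_add]
      rw [show -(K : ℝ) + 2 * K + -K = 0 by ring, Real.exp_zero]
    calc _ = (Real.exp (-(K : ℝ)) * Real.exp (2 * K) * Real.exp (-(K : ℝ))) *
          (Real.exp (K : ℝ) * (D ^ n * Y ^ K)) := by ring
      _ = _ := by rw [e1, one_mul]
  rw [g4, mul_assoc] at g3
  exact le_of_mul_le_mul_right g3 (by positivity)

theorem TE2 : StmtTE2 := by
  refine ⟨1 / (24576 * 27000), by norm_num, ?_⟩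
  intro m n t e r hm ht hmn hr he h
  have hmR : (1 : ℝ) ≤ m := by exact_mod_cast hm
  have htR : (1 : ℝ) ≤ t := by exact_mod_cast ht
  have hmnR : (m : ℝ) ≤ t * n := by exact_mod_cast hmn
  have hrR : (1 : ℝ) ≤ r := by exact_mod_cast hr
  unfold expon
  set x : ℝ := t * n / m with hx
  have hx1 : 1 ≤ x := by rw [hx, le_div_iff₀ (by linarith)]; linarith
  have hlog : 0 ≤ Real.log x := Real.log_nonneg hx1
  set l : ℝ := 1 + Real.log x with hl
  have hl1 : 1 ≤ l := by linarith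
  obtain ⟨a, ha1, ha2, ha3, ha4⟩ := E2_a hx1
  rw [← hl] at ha4
  have haR : (1 : ℝ) ≤ a := by exact_mod_cast ha1
  have h2a : 1 ≤ 2 ^ a := Nat.one_le_two_pow
  have ha3' : (a : ℝ) ^ 3 ≤ 27000 * l ^ 3 := by
    have := pow_le_pow_left₀ (by positivity) ha4 3
    rw [mul_pow] at this
    linarith
  have ha2' : (a : ℝ) ^ 2 ≤ 900 * l ^ 2 := by
    have := pow_le_pow_left₀ (by positivity) ha4 2
    rw [mul_pow] at this
    linarith
  set M : ℕ := max (2 ^ a) (2 * a * t) with hM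
  have hMa : 2 ^ a ≤ M := le_max_left _ _
  have hMt : 2 * a * t ≤ M := le_max_right _ _
  have hM1 : 1 ≤ M := h2a.trans hMa
  have hM0 : (0 : ℝ) < M := by exact_mod_cast hM1
  have hMle : (M : ℝ) ≤ 2048 * (a : ℝ) ^ 2 * x + 2 * a * t := by
    rw [hM, Nat.cast_max]
    push_cast
    refine max_le ?_ ?_
    · have : (0 : ℝ) ≤ 2 * a * t := by positivity
      linarith
    · have : (0 : ℝ) ≤ 2048 * (a : ℝ) ^ 2 * x := by positivity
      linarith
  have hN : 12 * (a : ℝ) * M ≤ 24576 * 27000 * (l ^ 2 * (t + x * l)) := by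
    have h1 : 12 * (a : ℝ) * M ≤ 12 * a * (2048 * (a : ℝ) ^ 2 * x + 2 * a * t) := by gcongr
    have h2 : x * (a : ℝ) ^ 3 ≤ x * (27000 * l ^ 3) := by gcongr
    have h3 : (t : ℝ) * (a : ℝ) ^ 2 ≤ t * (900 * l ^ 2) := by gcongr
    have h4 : 12 * (a : ℝ) * (2048 * (a : ℝ) ^ 2 * x + 2 * a * t) =
        24576 * (x * a ^ 3) + 24 * (t * a ^ 2) := by ring
    have h5 : 24576 * 27000 * (l ^ 2 * (t + x * l)) =
        24576 * (x * (27000 * l ^ 3)) + 24576 * 27000 * (t * l ^ 2) := by ring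
    rw [h4] at h1
    rw [h5]
    have h6 : 0 ≤ (t : ℝ) * l ^ 2 := by positivity
    linarith
  have hexp : 1 / (24576 * 27000) * (m / (l ^ 2 * (t + x * l))) =
      m / (24576 * 27000 * (l ^ 2 * (t + x * l))) := by
    field_simp
  rw [hexp]
  have hexp2 : (m : ℝ) / (24576 * 27000 * (l ^ 2 * (t + x * l))) ≤ m / (12 * a * M) :=
    div_le_div_of_nonneg_left (by positivity) (by positivity) hN
  have hβle : (beta a (M - 1) : ℝ) ≤ 6 * a * M := by
    have h0 : beta a (M - 1) ≤ 6 * a * M := by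
      unfold beta
      rw [Nat.sub_add_cancel hM1]
      have h1 : (a + 1) * 2 ^ a ≤ (2 * a) * M := Nat.mul_le_mul (by omega) hMa
      have h2 : 2 * ((a + 1) * 2 ^ a + a * M) = 2 * ((a + 1) * 2 ^ a) + 2 * a * M := by ring
      have h3 : 6 * a * M = 2 * ((2 * a) * M) + 2 * a * M := by ring
      omega
    exact_mod_cast h0
  have hβ1 : 1 ≤ beta a (M - 1) := by
    unfold beta
    rw [Nat.sub_add_cancel hM1]
    have : 1 * 1 ≤ (a + 1) * 2 ^ a := Nat.mul_le_mul (by omega) h2a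
    omega
  by_cases hcase : m < beta a (M - 1)
  · have h1 : (m : ℝ) ≤ 6 * a * M := by
      have : (m : ℝ) < beta a (M - 1) := by exact_mod_cast hcase
      linarith
    have h2 : (m : ℝ) / (24576 * 27000 * (l ^ 2 * (t + x * l))) ≤ 1 := by
      refine hexp2.trans ?_
      rw [div_le_one (by positivity)]
      have : (0 : ℝ) ≤ a * M := by positivity
      linarith
    have h3 := Real.exp_one_lt_d9
    have h4 := Real.exp_le_exp.2 h2
    linarith
  · push Not at hcase
    set K : ℕ := m / beta a (M - 1) with hK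
    have hK1 : 1 ≤ K := (Nat.one_le_div_iff (by omega)).2 hcase
    have hKR : (1 : ℝ) ≤ K := by exact_mod_cast hK1
    have hKm : K * beta a (M - 1) ≤ m := Nat.div_mul_le_self _ _
    have hK2 : (m : ℝ) ≤ K * (12 * a * M) := by
      have h1 : m < (K + 1) * beta a (M - 1) := by
        have := Nat.lt_div_mul_add (a := m) (b := beta a (M - 1)) (by omega)
        rw [← hK] at this
        nlinarith
      have h2 : (m : ℝ) < (K + 1) * beta a (M - 1) := by exact_mod_cast h1
      have h3 : ((K : ℝ) + 1) * beta a (M - 1) ≤ (2 * K) * (6 * a * M) := by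
        gcongr
        linarith
      have h4 : (2 * (K : ℝ)) * (6 * a * M) = K * (12 * a * M) := by ring
      rw [h4] at h3
      linarith
    have he' : 2 * a * (e : ℝ) ≤ K * M := by
      have h1 : (e : ℝ) * l ^ 2 ≤ 1 / (24576 * 27000) * m := by
        rw [le_div_iff₀ (by positivity)] at he
        exact he
      have h2 : (e : ℝ) * a ^ 2 ≤ e * (900 * l ^ 2) := by gcongr
      have h3 : 24 * (a : ℝ) ^ 2 * e ≤ m := by
        have e1 : 24 * (a : ℝ) ^ 2 * e = 24 * (e * a ^ 2) := by ring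
        have e2 : (e : ℝ) * (900 * l ^ 2) = 900 * (e * l ^ 2) := by ring
        rw [e1]
        rw [e2] at h2
        linarith
      have h4 : 24 * (a : ℝ) ^ 2 * e ≤ K * (12 * a * M) := h3.trans hK2
      have h5 : (12 * (a : ℝ)) * (2 * a * e) ≤ (12 * a) * (K * M) := by
        have e1 : (12 * (a : ℝ)) * (2 * a * e) = 24 * a ^ 2 * e := by ring
        have e2 : (12 * (a : ℝ)) * (K * M) = K * (12 * a * M) := by ring
        rw [e1, e2]
        exact h4
      exact le_of_mul_le_mul_left h5 (by positivity)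
    have key := TE2_core hm ht hmn ha1 hK1 hx ha2 hMt hKm hK2 he' h
    have h1 : (m : ℝ) / (12 * a * M) ≤ K := by
      rw [div_le_iff₀ (by positivity)]
      exact hK2
    have h2 := Real.exp_le_exp.2 (hexp2.trans h1)
    linarith

end Pool.Agent.Work.MP_499dc6_lc.TSD
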