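import Mathlib
import Pool.Agent.Work.MP_104cea_lc.Bd.B05
import Pool.Agent.Work.MP_104cea_lc.Bd.B06
import Pool.Agent.Work.MP_499dc6_lc.TSD.M0
import Pool.Agent.Work.MP_499dc6_lc.TSD.M1
import Pool.Agent.Work.MP_499dc6_lc.TSD.M2
import Pool.Agent.Work.MP_499dc6_lc.TSD.M3
import Pool.Agent.Work.MP_499dc6_lc.TSD.TS1
import Pool.Agent.Work.MP_499dc6_lc.TSD.TS4
import Pool.Agent.Work.MP_499dc6_lc.TSD.TS5
import Pool.Agent.Work.MP_499dc6_lc.TSD.TP1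
import Pool.Agent.Work.MP_499dc6_lc.TSD.TE1
import Pool.Agent.Work.MP_499dc6_lc.TSD.TE2
import Pool.Agent.Work.MP_499dc6_lc.TSD.TE3

/-!
# Assembly
-/

set_option autoImplicit false

namespace Pool.Agent.Work.MP_499dc6_lc.TSD

open Pool.Agent.Work.MP_104cea_lc

theorem final : StmtTMain := by
  have hB5 : SumDet.StmtB5 := SumDet.B5 SumDet.B3 SumDet.B4a SumDet.B4b
  have hB6 : SumDet.StmtB6 := SumDet.B6 SumDet.B2 hB5
  have hM4 : StmtM4 := M4_of (M2 M1 hB6) (M3 M0)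
  have hG4 : SDB.StmtG4 := SDB.G4 (SDB.G2 SDB.G1) SDB.G3
  have hS3 : SDB.StmtS3 := SDB.S3 SumDet.A1 SDB.S2
  have hS5 : StmtTS5 := TS5 hM4 hG4 hS3 TS1 TS4
  exact Main (TE1 SumDet.D2 SDB.P2 hS5 TP1) TE2 TE3

end Pool.Agent.Work.MP_499dc6_lc.TSD
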